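import Pool.Agent.Work.MP_b73316_nt.V.Defs
import Pool.Agent.Work.MP_b73316_nt.Lim1b

/-!
Module V.NvV: if the sum of level `T` is not divisible by `p^T` then `|ζ_p(2κ+1)| > p^(-(2κ+1) - T)`.
-/

set_option autoImplicit false

open Finset Filter

namespace Pool.Agent.Work.MP_b73316_nt.V

private theorem two_pow_ne {p : ℕ} [Fact p.Prime] (j : ℕ) (hj : 1 ≤ j) :
    (2 : ℚ_[p]) ^ (-(j : ℤ)) - 1 ≠ 0 := by
  intro h
  have h1 : (2 : ℚ_[p]) ^ (-(j : ℤ)) = 1 := sub_eq_zero.mp h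
  rw [zpow_neg, inv_eq_one, zpow_natCast] at h1
  have h2 : ((2 ^ j : ℕ) : ℚ_[p]) = ((1 : ℕ) : ℚ_[p]) := by
    push_cast
    exact h1
  have h3 : 2 ^ j = 1 := Nat.cast_injective h2
  have h4 : 2 ≤ 2 ^ j := by
    calc 2 = 2 ^ 1 := rfl
      _ ≤ 2 ^ j := Nat.pow_le_pow_right (by norm_num) hj
  omega

private theorem main {p : ℕ} [Fact p.Prime] (hp : p ≠ 2) (κ : ℕ) (hκ : 1 ≤ κ) :
    ∃ μ : ℚ_[p], (∀ N : ℕ, 1 ≤ N → ‖VV p (-(2 * κ : ℤ)) N - μ‖ ≤ (p : ℝ) ^ (-(N : ℤ))) ∧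
      ∃ C : ℚ_[p], (p : ℝ) ^ (-(2 * κ + 1 : ℤ)) ≤ ‖C‖ ∧ Tendsto (zs p (2 * κ + 1)) atTop (nhds (C * μ)) := by
  have hpr : p.Prime := Fact.out
  have hp1 : (1 : ℝ) < p := by exact_mod_cast hpr.one_lt
  have hp0 : (0 : ℝ) < p := by linarith
  have hpQ : (p : ℚ_[p]) ≠ 0 := by
    exact_mod_cast hpr.ne_zero
  obtain ⟨μ, hμ⟩ := mu_exists p hp (-(2 * κ : ℤ)) ⟨-(κ : ℤ), by ring⟩
  refine ⟨μ, fun N hN => (hμ N hN).1, ?_⟩
  set k : ℤ := -(2 * κ : ℤ) with hk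
  set A : ℚ_[p] := (2 : ℚ_[p]) ^ k - 1 with hA
  have hA0 : A ≠ 0 := by
    have := two_pow_ne (p := p) (2 * κ) (by omega)
    rw [hA, hk]
    exact_mod_cast this
  have hk0 : (k : ℚ_[p]) ≠ 0 := by
    have : k ≠ 0 := by omega
    exact_mod_cast this
  set c : ℚ_[p] := ((p : ℚ_[p]) ^ (2 * κ + 1) / ((p : ℚ_[p]) ^ (2 * κ + 1) - 1)) *
    (((2 * κ + 1 : ℕ) : ℚ_[p]) - 1)⁻¹ with hc
  have hc0 : c ≠ 0 := by
    rw [hc]
    refine mul_ne_zero (div_ne_zero (pow_ne_zero _ hpQ) ?_) (inv_ne_zero ?_)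
    · intro h
      have h1 : ((p ^ (2 * κ + 1) : ℕ) : ℚ_[p]) = ((1 : ℕ) : ℚ_[p]) := by
        push_cast
        exact sub_eq_zero.mp h
      have h2 : p ^ (2 * κ + 1) = 1 := Nat.cast_injective h1
      have h3 : 1 < p ^ (2 * κ + 1) := Nat.one_lt_pow (by omega) hpr.one_lt
      omega
    · intro h
      have h1 : (((2 * κ + 1 : ℕ)) : ℚ_[p]) = ((1 : ℕ) : ℚ_[p]) := by
        rw [Nat.cast_one]
        exact sub_eq_zero.mp h
      have h2 : 2 * κ + 1 = 1 := Nat.cast_injective h1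
      omega
  have hck : (((2 * κ + 1 : ℕ) : ℚ_[p]) - 1)⁻¹ * k = -1 := by
    have e1 : ((2 * κ + 1 : ℕ) : ℚ_[p]) - 1 = -(k : ℚ_[p]) := by
      rw [hk]
      push_cast
      ring
    rw [e1, inv_neg, neg_mul, inv_mul_cancel₀ hk0]
  have hnorm : (p : ℝ) ^ (-(2 * κ + 1 : ℤ)) ≤ ‖c * k / A‖ := by
    have e1 : c * k = -((p : ℚ_[p]) ^ (2 * κ + 1) / ((p : ℚ_[p]) ^ (2 * κ + 1) - 1)) := by
      rw [hc, mul_assoc, hck]
      ring
    have hlt : ‖(p : ℚ_[p]) ^ (2 * κ + 1)‖ < 1 := by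
      rw [Padic.norm_p_pow]
      exact zpow_lt_one_of_neg₀ hp1 (by omega)
    have e2 : ‖(p : ℚ_[p]) ^ (2 * κ + 1) - 1‖ = 1 := by
      have h : ‖(p : ℚ_[p]) ^ (2 * κ + 1) + -1‖ = max ‖(p : ℚ_[p]) ^ (2 * κ + 1)‖ ‖(-1 : ℚ_[p])‖ := by
        apply Padic.add_eq_max_of_ne
        rw [norm_neg, norm_one]
        exact hlt.ne
      rw [sub_eq_add_neg, h, norm_neg, norm_one, max_eq_right hlt.le]
    have e3 : ‖A‖ ≤ 1 := by
      rw [hA]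
      rw [sub_eq_add_neg]
      refine (Padic.nonarchimedean _ _).trans (max_le ?_ ?_)
      · rw [norm_zpow]
        have h2 : ‖(2 : ℚ_[p])‖ = 1 := by
          have := (Padic.norm_natCast_eq_one_iff (p := p) (n := 2)).2
            ((Nat.coprime_primes hpr Nat.prime_two).2 hp)
          exact_mod_cast this
        rw [h2, one_zpow]
      · rw [norm_neg, norm_one]
    rw [norm_div, e1, norm_neg, norm_div, e2, div_one, Padic.norm_p_pow]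
    have hA1 : 0 < ‖A‖ := norm_pos_iff.2 hA0
    rw [le_div_iff₀ hA1]
    calc (p : ℝ) ^ (-(2 * κ + 1 : ℤ)) * ‖A‖ ≤ (p : ℝ) ^ (-(2 * κ + 1 : ℤ)) * 1 :=
          mul_le_mul_of_nonneg_left e3 (by positivity)
      _ = (p : ℝ) ^ (-((2 * κ + 1 : ℕ) : ℤ)) := by
          rw [mul_one]
          push_cast
          rfl
  refine ⟨c * k / A, hnorm, ?_⟩
  have h1 : Tendsto (fun N : ℕ => A * (((p : ℚ_[p]) ^ N)⁻¹ * UU p k N)) atTop
      (nhds (k * μ)) := by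
    rw [tendsto_iff_norm_sub_tendsto_zero]
    have h2 : Tendsto (fun N : ℕ => ((p : ℝ)⁻¹) ^ N) atTop (nhds 0) :=
      tendsto_pow_atTop_nhds_zero_of_lt_one (by positivity) (inv_lt_one_of_one_lt₀ hp1)
    refine squeeze_zero' (Eventually.of_forall fun N => norm_nonneg _) ?_ h2
    filter_upwards [eventually_ge_atTop 1] with N hN
    have h3 := (hμ N hN).2
    have h4 : A * (((p : ℚ_[p]) ^ N)⁻¹ * UU p k N) - k * μ =
        ((p : ℚ_[p]) ^ N)⁻¹ * (A * UU p k N - k * (p : ℚ_[p]) ^ N * μ) := by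
      have : (p : ℚ_[p]) ^ N ≠ 0 := pow_ne_zero _ hpQ
      field_simp
    rw [h4, norm_mul, norm_inv, Padic.norm_p_pow]
    calc ((p : ℝ) ^ (-(N : ℤ)))⁻¹ * ‖A * UU p k N - k * (p : ℚ_[p]) ^ N * μ‖
        ≤ ((p : ℝ) ^ (-(N : ℤ)))⁻¹ * (p : ℝ) ^ (-(2 * N : ℤ)) := by gcongr
      _ = ((p : ℝ)⁻¹) ^ N := by
          rw [← zpow_neg, ← zpow_add₀ hp0.ne', inv_pow, ← zpow_natCast, ← zpow_neg]
          congr 1
          ring
  have h5 : ∀ N : ℕ, zs p (2 * κ + 1) N = c / A * (A * (((p : ℚ_[p]) ^ N)⁻¹ * UU p k N)) := by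
    intro N
    have h6 : UU p k N = ∑ m ∈ (Finset.range (p ^ N)).filter (fun m => ¬ p ∣ m),
        ((m : ℚ_[p]) ^ (2 * κ + 1 - 1))⁻¹ := by
      unfold UU
      refine sum_congr rfl fun m _ => ?_
      rw [hk, zpow_neg, Nat.add_sub_cancel]
      congr 1
      exact_mod_cast zpow_natCast (m : ℚ_[p]) (2 * κ)
    rw [zs, ← h6, ← hc]
    field_simp
  have h7 : Tendsto (zs p (2 * κ + 1)) atTop (nhds (c / A * (k * μ))) := by
    refine (h1.const_mul (c / A)).congr fun N => ?_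
    rw [h5 N]
  have h8 : c / A * (k * μ) = c * k / A * μ := by ring
  rwa [h8] at h7

theorem nv_VV (p : ℕ) [Fact p.Prime] (hp : p ≠ 2) (κ T : ℕ) (hκ : 1 ≤ κ) (hT : 1 ≤ T)
    (h0 : (p : ℝ) ^ (-(T : ℤ)) < ‖VV p (-(2 * κ : ℤ)) T‖) : NV T p (2 * κ + 1) := by
  have hpr : p.Prime := Fact.out
  have hp0 : (0 : ℝ) < p := by exact_mod_cast hpr.pos
  obtain ⟨μ, hμ, C, hC, hL⟩ := main hp κ hκ
  refine ⟨hpr, C * μ, ?_, hL⟩
  have h1 : (p : ℝ) ^ (-(T : ℤ)) < ‖μ‖ := by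
    by_contra hcon
    push Not at hcon
    have e : VV p (-(2 * κ : ℤ)) T = (VV p (-(2 * κ : ℤ)) T - μ) + μ := by ring
    rw [e] at h0
    exact absurd ((Padic.nonarchimedean _ _).trans (max_le (hμ T hT) hcon)) (not_le.2 h0)
  have h2 : (p : ℝ) ^ (-(((2 * κ + 1 : ℕ) : ℤ) + T)) =
      (p : ℝ) ^ (-(2 * κ + 1 : ℤ)) * (p : ℝ) ^ (-(T : ℤ)) := by
    rw [← zpow_add₀ hp0.ne']
    congr 1
    push_cast
    ring
  rw [h2, norm_mul]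
  calc (p : ℝ) ^ (-(2 * κ + 1 : ℤ)) * (p : ℝ) ^ (-(T : ℤ)) <
      (p : ℝ) ^ (-(2 * κ + 1 : ℤ)) * ‖μ‖ := mul_lt_mul_of_pos_left h1 (by positivity)
    _ ≤ ‖C‖ * ‖μ‖ := mul_le_mul_of_nonneg_right hC (norm_nonneg _)

end Pool.Agent.Work.MP_b73316_nt.V
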