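import Pool.Agent.Work.MP_b73316_nt.V.Defs
import Pool.Agent.Work.MP_b73316_nt.Lim2

/-!
Module Cng (size M): the Kummer type congruence.

PROOF.  `s = 0` is trivial.  Let `s ≥ 1`, `k_i = i(p-1) - 2κ` (`k_0 = -2κ`); for `i ≥ 1`,
`k_i ≥ 13` is even and `k_i - 1 ≥ s`.  The set `I` of the series all of whose coefficients are divisible
by `p^s` is an ideal of `ℤ_p⟦q⟧`.  If `y ∈ ℤ_p`, `y ≡ 1 mod p`, then all coefficients of `E - y` are
divisible by `p`, so `(E - y)^s = ∑_{i ≤ s} (-1)^i C(s,i) y^i E^(s-i) ∈ I`        (*)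
(products: induction on `s`).  Write the series of the statement as
`∑_{i=0}^s (-1)^i C(s,i) E^(s-i) h_i`, with `h_0 = (1 - 4^κ) F`, `h_i = 4^κ H_i`; expand `h_i` in
powers of `q` up to `q^(p-1)` (the rest does not matter for coefficients `n < p`).
* Power `q^n`, `1 ≤ n < p`.  For `i ≥ 1`, `4^κ (2^(k_i) - 1) σ_{k_i - 1}(n) = ∑_{d ∣ n} d^(-2κ-1)
  [((2d)^(p-1))^i - 4^κ (d^(p-1))^i]` (`d` is a unit of `ℤ_p`, `4^κ 2^(k_i) = 2^(i(p-1))`), and for
  `i = 0` the same formula gives `(1 - 4^κ) σ_{-(2κ+1)}(n)`, the coefficient of `h_0`.  So the sum over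
  `i` is `∑_{d ∣ n} d^(-2κ-1) [(E - (2d)^(p-1))^s - 4^κ (E - d^(p-1))^s] ∈ I` by (*) and Fermat
  (`ZMod.pow_card_sub_one_eq_one`).
* Power `q^0`.  `coeff 0 F = 0` (`IsF`, `n = 0`).  For `i ≥ 1`, `2 coeff 0 (H_i) =
  -(2^(k_i) - 1) B_{k_i}/k_i` is an integer of `ℤ_p`, and by `V_bern` with `N = s` and
  `p^(k_i - 1) ≡ 0 mod p^s`: `2 coeff 0 (H_i) ≡ - VV p (k_i) s` modulo `p^s`.  For `i = 0` put
  `- VV p (-2κ) s ≡ 0` by `hv`.  Here `VV p (k_i) s = ∑_{r odd, r < p^s, p ∤ r} r^(-2κ-1)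
  (r^(p-1))^i`.  So twice the sum over `i` of the constant terms is, modulo `I`,
  `-4^κ ∑_r r^(-2κ-1) ∑_{i=0}^s (-1)^i C(s,i) (r^(p-1))^i E^(s-i) = -4^κ ∑_r r^(-2κ-1)
  (E - r^(p-1))^s ∈ I`; `2` is a unit.
In Lean it is convenient to use `PadicInt` units or `Ring.inverse` for `d^(-1)`; the equalities in
`ℤ_[p]` can be checked in `ℚ_[p]`.
-/

set_option autoImplicit false

open PowerSeries Finset MP0f16e1

namespace Pool.Agent.Work.MP_b73316_nt.V

private theorem cng_dvd_iff (p : ℕ) [Fact p.Prime] (x : ℤ_[p]) (n : ℕ) :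
    (p : ℤ_[p]) ^ n ∣ x ↔ ‖(x : ℚ_[p])‖ ≤ (p : ℝ) ^ (-(n : ℤ)) := by
  rw [← Ideal.mem_span_singleton, ← PadicInt.norm_le_pow_iff_mem_span_pow]
  rfl

private theorem cng_norm (p : ℕ) [Fact p.Prime] (d : ℕ) (hd : ¬ p ∣ d) : ‖(d : ℚ_[p])‖ = 1 :=
  Padic.norm_natCast_eq_one_iff.2 (((Fact.out : p.Prime).coprime_iff_not_dvd).2 hd)

private noncomputable def cw (p κ : ℕ) [Fact p.Prime] (d : ℕ) : ℤ_[p] :=
  Ring.inverse ((d : ℤ_[p]) ^ (2 * κ + 1))

private theorem cw_mul (p κ : ℕ) [Fact p.Prime] (d : ℕ) (hd : ¬ p ∣ d) :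
    cw p κ d * (d : ℤ_[p]) ^ (2 * κ + 1) = 1 := by
  apply Ring.inverse_mul_cancel
  apply IsUnit.pow
  rw [PadicInt.isUnit_iff, PadicInt.norm_natCast_eq_one_iff]
  exact ((Fact.out : p.Prime).coprime_iff_not_dvd).2 hd

private theorem cw_coe (p κ : ℕ) [Fact p.Prime] (d : ℕ) (hd : ¬ p ∣ d) :
    ((cw p κ d : ℤ_[p]) : ℚ_[p]) = ((d : ℚ_[p]) ^ (2 * κ + 1))⁻¹ := by
  apply eq_inv_of_mul_eq_one_left
  have h := congrArg (fun x : ℤ_[p] => (x : ℚ_[p])) (cw_mul p κ d hd)
  beta_reduce at h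
  push_cast at h
  exact h

private theorem cng_fermat (p : ℕ) [Fact p.Prime] (d : ℕ) (hd : ¬ p ∣ d) :
    (p : ℤ_[p]) ∣ ((d : ℤ_[p]) ^ (p - 1) - 1) := by
  have hp : p.Prime := Fact.out
  have h1 : IsCoprime (d : ℤ) (p : ℤ) := by
    rw [Nat.isCoprime_iff_coprime]
    exact ((Nat.Prime.coprime_iff_not_dvd hp).2 hd).symm
  have h2 := (Int.ModEq.pow_card_sub_one_eq_one hp h1).symm.dvd
  have h3 := map_dvd (Int.castRingHom ℤ_[p]) h2
  simpa using h3

private theorem cng_pow (p s : ℕ) [Fact p.Prime] (E : PowerSeries ℤ_[p])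
    (hE : ∀ n, (p : ℤ_[p]) ∣ coeff n (E - 1)) (y : ℤ_[p]) (hy : (p : ℤ_[p]) ∣ y - 1) (a : ℕ) :
    (p : ℤ_[p]) ^ s ∣ ∑ i ∈ range (s + 1), ((-1) ^ i * (s.choose i : ℤ_[p])) *
      coeff a (E ^ (s - i)) * y ^ i := by
  have h1 : ∀ n, (p : ℤ_[p]) ∣ coeff n (E - C y) := by
    intro n
    have : E - C y = (E - 1) - C (y - 1) := by rw [map_sub, map_one]; ring
    rw [this, map_sub]
    refine dvd_sub (hE n) ?_
    rw [coeff_C]
    split_ifs
    · exact hy
    · exact dvd_zero _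
  choose g hg using h1
  have h2 : E - C y = C (p : ℤ_[p]) * PowerSeries.mk g := by
    ext n
    rw [hg n, coeff_C_mul, coeff_mk]
  have h3 : coeff a ((E - C y) ^ s) = (p : ℤ_[p]) ^ s * coeff a (PowerSeries.mk g ^ s) := by
    rw [h2, mul_pow, ← map_pow, coeff_C_mul]
  have h4 : (E - C y) ^ s = ∑ i ∈ range (s + 1),
      C ((-1) ^ i * (s.choose i : ℤ_[p]) * y ^ i) * E ^ (s - i) := by
    have : E - C y = C (-y) + E := by rw [map_neg]; ring
    rw [this, add_pow]
    apply Finset.sum_congr rfl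
    intro i _
    rw [← map_pow, neg_pow y i, map_mul, map_mul, map_mul, map_natCast]
    ring
  have h5 : (∑ i ∈ range (s + 1), ((-1) ^ i * (s.choose i : ℤ_[p])) *
      coeff a (E ^ (s - i)) * y ^ i) = coeff a ((E - C y) ^ s) := by
    rw [h4, map_sum]
    apply Finset.sum_congr rfl
    intro i _
    rw [coeff_C_mul]
    ring
  rw [h5, h3]
  exact dvd_mul_right _ _

/-- the sequences `γ` with `∑ (-1)^i C(s,i) E^(s-i) γ_i ≡ 0` modulo `p^s` -/
private noncomputable def cGood (p s : ℕ) [Fact p.Prime] (E : PowerSeries ℤ_[p]) :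
    Submodule ℤ_[p] (ℕ → ℤ_[p]) where
  carrier := {γ | ∀ a, (p : ℤ_[p]) ^ s ∣ ∑ i ∈ range (s + 1),
    ((-1) ^ i * (s.choose i : ℤ_[p])) * coeff a (E ^ (s - i)) * γ i}
  add_mem' := by
    intro γ δ h1 h2 a
    have := dvd_add (h1 a) (h2 a)
    rw [← Finset.sum_add_distrib] at this
    convert this using 1
    apply Finset.sum_congr rfl
    intro i _
    simp only [Pi.add_apply]
    ring
  zero_mem' := by
    intro a
    simp
  smul_mem' := by
    intro c γ h1 a
    have := (h1 a).mul_left c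
    rw [Finset.mul_sum] at this
    convert this using 1
    apply Finset.sum_congr rfl
    intro i _
    simp only [Pi.smul_apply, smul_eq_mul]
    ring

private theorem cGood_pow (p s : ℕ) [Fact p.Prime] (E : PowerSeries ℤ_[p])
    (hE : ∀ n, (p : ℤ_[p]) ∣ coeff n (E - 1)) (y : ℤ_[p]) (hy : (p : ℤ_[p]) ∣ y - 1) :
    (fun i => y ^ i) ∈ cGood p s E := fun a => cng_pow p s E hE y hy a

private theorem cGood_err (p s : ℕ) [Fact p.Prime] (E : PowerSeries ℤ_[p]) (γ : ℕ → ℤ_[p])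
    (h : ∀ i ≤ s, (p : ℤ_[p]) ^ s ∣ γ i) : γ ∈ cGood p s E := by
  intro a
  apply Finset.dvd_sum
  intro i hi
  exact (h i (by have := Finset.mem_range.1 hi; omega)).mul_left _

private theorem cng_dpow (p κ : ℕ) [Fact p.Prime] (d : ℕ) (hd : ¬ p ∣ d) (i : ℕ) (hi : 1 ≤ i)
    (hp : 2 * κ + 14 ≤ p) :
    (d : ℤ_[p]) ^ (i * (p - 1) - 2 * κ - 1) = cw p κ d * ((d : ℤ_[p]) ^ (p - 1)) ^ i := by
  have h0 : p - 1 ≤ i * (p - 1) := Nat.le_mul_of_pos_left _ hi
  have h1 : i * (p - 1) - 2 * κ - 1 + (2 * κ + 1) = (p - 1) * i := by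
    rw [mul_comm (p - 1) i]; omega
  have h2 := cw_mul p κ d hd
  calc (d : ℤ_[p]) ^ (i * (p - 1) - 2 * κ - 1)
      = (cw p κ d * (d : ℤ_[p]) ^ (2 * κ + 1)) * (d : ℤ_[p]) ^ (i * (p - 1) - 2 * κ - 1) := by
        rw [h2, one_mul]
    _ = cw p κ d * (d : ℤ_[p]) ^ (i * (p - 1) - 2 * κ - 1 + (2 * κ + 1)) := by
        rw [pow_add]; ring
    _ = _ := by rw [h1, pow_mul]

private theorem cng_two (p κ : ℕ) [Fact p.Prime] (i : ℕ) (hi : 1 ≤ i)
    (hp : 2 * κ + 14 ≤ p) :
    (4 : ℤ_[p]) ^ κ * (2 : ℤ_[p]) ^ (i * (p - 1) - 2 * κ) = ((2 : ℤ_[p]) ^ (p - 1)) ^ i := by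
  have h0 : p - 1 ≤ i * (p - 1) := Nat.le_mul_of_pos_left _ hi
  have h1 : 2 * κ + (i * (p - 1) - 2 * κ) = (p - 1) * i := by
    rw [mul_comm (p - 1) i]; omega
  have h4 : (4 : ℤ_[p]) = 2 ^ 2 := by norm_num
  rw [h4, ← pow_mul, ← pow_add, h1, pow_mul]

/-- the terms of the sum -/
private noncomputable def ch (p κ : ℕ) [Fact p.Prime] (F : PowerSeries ℤ_[p]) (H : ℕ → PowerSeries ℤ_[p])
    (i : ℕ) : PowerSeries ℤ_[p] :=
  if i = 0 then (1 - (4 : ℤ_[p]) ^ κ) • F else (4 : ℤ_[p]) ^ κ • H i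

private theorem ch_pos (p κ s : ℕ) [Fact p.Prime] (hp : 2 * κ + 14 ≤ p)
    (H : ℕ → PowerSeries ℤ_[p]) (hH : ∀ i, 1 ≤ i → i ≤ s → IsH p (i * (p - 1) - 2 * κ) (H i))
    (F : PowerSeries ℤ_[p]) (hF : IsF p (2 * κ + 1) F) (b : ℕ) (hb : b < p) (hb0 : 1 ≤ b)
    (i : ℕ) (hi : i ≤ s) :
    coeff b (ch p κ F H i) = ∑ d ∈ b.divisors, cw p κ d *
      (((((2 * d : ℕ) : ℤ_[p]) ^ (p - 1)) ^ i) - (4 : ℤ_[p]) ^ κ * ((d : ℤ_[p]) ^ (p - 1)) ^ i) := by
  have hdd : ∀ d ∈ b.divisors, ¬ p ∣ d := by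
    intro d hd h
    have h1 := Nat.divisor_le hd
    have h2 := Nat.pos_of_mem_divisors hd
    have := Nat.le_of_dvd h2 h
    omega
  unfold ch
  rcases Nat.eq_zero_or_pos i with rfl | hi0
  · rw [if_pos rfl, coeff_smul, smul_eq_mul]
    simp only [pow_zero, mul_one]
    have h1 : coeff b F = ∑ d ∈ b.divisors, cw p κ d := by
      apply Subtype.coe_injective
      have := hF b hb
      simp only
      rw [show ((coeff b F : ℤ_[p]) : ℚ_[p]) = _ from this]
      unfold Fs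
      rw [coeff_mk]
      rw [PadicInt.coe_sum]
      push_cast
      apply Finset.sum_congr rfl
      intro d hd
      rw [cw_coe p κ d (hdd d hd)]
    rw [h1, Finset.mul_sum]
    apply Finset.sum_congr rfl
    intro d _
    ring
  · rw [if_neg (by omega), coeff_smul, smul_eq_mul, (hH i hi0 hi).2 b hb0,
      ArithmeticFunction.sigma_apply]
    push_cast
    rw [← mul_assoc, Finset.mul_sum]
    apply Finset.sum_congr rfl
    intro d hd
    rw [cng_dpow p κ d (hdd d hd) i hi0 hp, mul_sub, mul_one, cng_two p κ i hi0 hp]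
    rw [mul_pow, mul_pow]
    ring

theorem cng (p κ s : ℕ) [Fact p.Prime] (hp : 2 * κ + 14 ≤ p) (hs : s ≤ 11)
    (hv : 1 ≤ s → ‖VV p (-(2 * κ : ℤ)) s‖ ≤ (p : ℝ) ^ (-(s : ℤ)))
    (E : PowerSeries ℤ_[p]) (hE : ∀ n, (p : ℤ_[p]) ∣ coeff n (E - 1))
    (H : ℕ → PowerSeries ℤ_[p]) (hH : ∀ i, 1 ≤ i → i ≤ s → IsH p (i * (p - 1) - 2 * κ) (H i))
    (F : PowerSeries ℤ_[p]) (hF : IsF p (2 * κ + 1) F) :
    ∀ n < p, (p : ℤ_[p]) ^ s ∣ coeff n ((1 - (4 : ℤ_[p]) ^ κ) • (E ^ s * F) +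
      (4 : ℤ_[p]) ^ κ • ∑ i ∈ Icc 1 s, ((-1) ^ i * (s.choose i : ℤ_[p])) • (E ^ (s - i) * H i)) := by
  intro n hn
  rcases Nat.eq_zero_or_pos s with rfl | hs0
  · simp
  have hpp : p.Prime := Fact.out
  have hp2 : p ≠ 2 := by omega
  have h2u : ¬ p ∣ 2 := by
    intro h
    have := Nat.le_of_dvd (by norm_num) h
    omega
  set R := (range (p ^ s)).filter (fun r => ¬ p ∣ r ∧ Odd r) with hR
  have hRd : ∀ r ∈ R, ¬ p ∣ r := by
    intro r hr
    exact (Finset.mem_filter.1 hr).2.1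
  -- coefficients
  have hgood : ∀ b < p, (fun i => 2 * coeff b (ch p κ F H i)) ∈ cGood p s E := by
    intro b hb
    rcases Nat.eq_zero_or_pos b with rfl | hb0
    · have key : ∀ i ≤ s, (p : ℤ_[p]) ^ s ∣ (2 * coeff 0 (ch p κ F H i) +
          (4 : ℤ_[p]) ^ κ * ∑ r ∈ R, cw p κ r * ((r : ℤ_[p]) ^ (p - 1)) ^ i) := by
        intro i hi
        unfold ch
        rcases Nat.eq_zero_or_pos i with rfl | hi0
        · rw [if_pos rfl, coeff_smul, smul_eq_mul]
          have h0 : coeff 0 F = 0 := by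
            apply Subtype.coe_injective
            have := hF 0 hpp.pos
            simp only
            rw [show ((coeff 0 F : ℤ_[p]) : ℚ_[p]) = _ from this]
            unfold Fs
            rw [coeff_mk]
            simp
          rw [h0, mul_zero, mul_zero, zero_add]
          apply Dvd.dvd.mul_left
          rw [cng_dvd_iff]
          have h1 := hv hs0
          have h2 : ((∑ r ∈ R, cw p κ r * ((r : ℤ_[p]) ^ (p - 1)) ^ 0 : ℤ_[p]) : ℚ_[p]) =
              VV p (-(2 * κ : ℤ)) s := by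
            unfold VV
            rw [← hR, PadicInt.coe_sum]
            push_cast
            apply Finset.sum_congr rfl
            intro r hr
            rw [cw_coe p κ r (hRd r hr), pow_zero, mul_one, ← zpow_natCast, ← zpow_neg]
            congr 1
            push_cast
            ring
          rw [h2]
          exact h1
        · rw [if_neg (by omega), coeff_smul, smul_eq_mul]
          set k := i * (p - 1) - 2 * κ with hk
          have hkge : 13 ≤ k := by
            have h0 : p - 1 ≤ i * (p - 1) := Nat.le_mul_of_pos_left _ hi0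
            omega
          have hke : Even k := by
            have h0 : p - 1 ≤ i * (p - 1) := Nat.le_mul_of_pos_left _ hi0
            have h1 : Even (p - 1) := hpp.even_sub_one hp2
            rw [hk, Nat.even_sub (by omega)]
            constructor
            · intro _
              exact even_two_mul κ
            · intro _
              exact h1.mul_left i
          have hVb := V_bern p hp2 k hke (by omega) s hs0
          have hH0 := (hH i hi0 hi).1
          rw [← hk] at hH0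
          have c2 : ((2 : ℤ_[p]) : ℚ_[p]) = 2 := rfl
          have hk0 : (k : ℚ_[p]) ≠ 0 := by
            have : k ≠ 0 := by omega
            exact_mod_cast this
          have h3 : (p : ℤ_[p]) ^ s ∣ 2 * coeff 0 (H i) +
              ∑ r ∈ R, cw p κ r * ((r : ℤ_[p]) ^ (p - 1)) ^ i := by
            have h4 : (p : ℤ_[p]) ^ s ∣ (∑ r ∈ R, cw p κ r * ((r : ℤ_[p]) ^ (p - 1)) ^ i) +
                (1 - (p : ℤ_[p]) ^ (k - 1)) * (2 * coeff 0 (H i)) := by
              rw [cng_dvd_iff]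
              have h5 : ((((∑ r ∈ R, cw p κ r * ((r : ℤ_[p]) ^ (p - 1)) ^ i) +
                (1 - (p : ℤ_[p]) ^ (k - 1)) * (2 * coeff 0 (H i))) : ℤ_[p]) : ℚ_[p]) =
                VV p k s - ((2 : ℚ_[p]) ^ k - 1) * (1 - (p : ℚ_[p]) ^ (k - 1)) *
                  ((bernoulli k : ℚ) : ℚ_[p]) / k := by
                have h6 : ((∑ r ∈ R, cw p κ r * ((r : ℤ_[p]) ^ (p - 1)) ^ i : ℤ_[p]) : ℚ_[p]) =
                    VV p k s := by
                  unfold VV
                  rw [← hR, PadicInt.coe_sum]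
                  apply Finset.sum_congr rfl
                  intro r hr
                  rw [← cng_dpow p κ r (hRd r hr) i hi0 hp, ← hk]
                  push_cast
                  rw [← zpow_natCast]
                  congr 1
                  omega
                rw [PadicInt.coe_add, h6, PadicInt.coe_mul, PadicInt.coe_mul, hH0, c2]
                push_cast
                field_simp
                ring
              rw [h5]
              exact hVb
            have h7 : (p : ℤ_[p]) ^ s ∣ (p : ℤ_[p]) ^ (k - 1) * (2 * coeff 0 (H i)) :=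
              (pow_dvd_pow _ (by omega)).mul_right _
            have h8 := dvd_add h4 h7
            convert h8 using 1
            ring
          have h9 := h3.mul_left ((4 : ℤ_[p]) ^ κ)
          convert h9 using 1
          ring
      have e1 : (fun i => 2 * coeff 0 (ch p κ F H i)) =
          (fun i => 2 * coeff 0 (ch p κ F H i) +
            (4 : ℤ_[p]) ^ κ * ∑ r ∈ R, cw p κ r * ((r : ℤ_[p]) ^ (p - 1)) ^ i) -
          (4 : ℤ_[p]) ^ κ • ∑ r ∈ R, cw p κ r • (fun i : ℕ => ((r : ℤ_[p]) ^ (p - 1)) ^ i) := by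
        funext i
        simp only [Pi.sub_apply, Pi.smul_apply, Finset.sum_apply, smul_eq_mul]
        ring
      rw [e1]
      refine Submodule.sub_mem _ (cGood_err p s E _ key) (Submodule.smul_mem _ _ ?_)
      refine Submodule.sum_mem _ ?_
      intro r hr
      exact Submodule.smul_mem _ _ (cGood_pow p s E hE _ (cng_fermat p r (hRd r hr)))
    · have e1 : (fun i => 2 * ∑ d ∈ b.divisors, cw p κ d *
          (((((2 * d : ℕ) : ℤ_[p]) ^ (p - 1)) ^ i) -
            (4 : ℤ_[p]) ^ κ * ((d : ℤ_[p]) ^ (p - 1)) ^ i)) =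
          (2 : ℤ_[p]) • ∑ d ∈ b.divisors, cw p κ d •
            ((fun i : ℕ => (((2 * d : ℕ) : ℤ_[p]) ^ (p - 1)) ^ i) -
              (4 : ℤ_[p]) ^ κ • (fun i : ℕ => ((d : ℤ_[p]) ^ (p - 1)) ^ i)) := by
        funext i
        simp only [Pi.sub_apply, Pi.smul_apply, Finset.sum_apply, smul_eq_mul]
      have e2 : (fun i => 2 * ∑ d ∈ b.divisors, cw p κ d *
          (((((2 * d : ℕ) : ℤ_[p]) ^ (p - 1)) ^ i) -
            (4 : ℤ_[p]) ^ κ * ((d : ℤ_[p]) ^ (p - 1)) ^ i)) ∈ cGood p s E := by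
        rw [e1]
        refine Submodule.smul_mem _ _ (Submodule.sum_mem _ ?_)
        intro d hd
        have hd1 : ¬ p ∣ d := by
          intro h
          have h1 := Nat.divisor_le hd
          have h2 := Nat.pos_of_mem_divisors hd
          have := Nat.le_of_dvd h2 h
          omega
        have hd2 : ¬ p ∣ 2 * d := by
          intro h
          rcases (hpp.dvd_mul).1 h with h | h
          · exact h2u h
          · exact hd1 h
        refine Submodule.smul_mem _ _ (Submodule.sub_mem _ ?_ (Submodule.smul_mem _ _ ?_))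
        · exact cGood_pow p s E hE _ (cng_fermat p (2 * d) hd2)
        · exact cGood_pow p s E hE _ (cng_fermat p d hd1)
      have e3 : (fun i => 2 * coeff b (ch p κ F H i)) =
          (fun i => 2 * ∑ d ∈ b.divisors, cw p κ d *
          (((((2 * d : ℕ) : ℤ_[p]) ^ (p - 1)) ^ i) -
            (4 : ℤ_[p]) ^ κ * ((d : ℤ_[p]) ^ (p - 1)) ^ i)) +
          (fun i => 2 * coeff b (ch p κ F H i) - 2 * ∑ d ∈ b.divisors, cw p κ d *
          (((((2 * d : ℕ) : ℤ_[p]) ^ (p - 1)) ^ i) -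
            (4 : ℤ_[p]) ^ κ * ((d : ℤ_[p]) ^ (p - 1)) ^ i)) := by
        funext i
        simp only [Pi.add_apply]
        ring
      rw [e3]
      refine Submodule.add_mem _ e2 (cGood_err p s E _ ?_)
      intro i hi
      rw [ch_pos p κ s hp H hH F hF b hb hb0 i hi, sub_self]
      exact dvd_zero _
  -- the series of the statement
  have hX : (1 - (4 : ℤ_[p]) ^ κ) • (E ^ s * F) +
      (4 : ℤ_[p]) ^ κ • ∑ i ∈ Icc 1 s, ((-1) ^ i * (s.choose i : ℤ_[p])) • (E ^ (s - i) * H i) =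
      ∑ i ∈ range (s + 1), ((-1) ^ i * (s.choose i : ℤ_[p])) •
        (E ^ (s - i) * ch p κ F H i) := by
    rw [Finset.sum_range_succ', add_comm]
    congr 1
    · rw [Finset.smul_sum]
      refine Finset.sum_bij' (fun i _ => i - 1) (fun i _ => i + 1) ?_ ?_ ?_ ?_ ?_
      · intro i hi
        rw [Finset.mem_Icc] at hi
        rw [Finset.mem_range]
        omega
      · intro i hi
        rw [Finset.mem_range] at hi
        rw [Finset.mem_Icc]
        omega
      · intro i hi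
        rw [Finset.mem_Icc] at hi
        omega
      · intro i _
        omega
      · intro i hi
        rw [Finset.mem_Icc] at hi
        have h1 : i - 1 + 1 = i := by omega
        rw [h1]
        unfold ch
        rw [if_neg (by omega), mul_smul_comm, smul_comm]
    · unfold ch
      rw [if_pos rfl, mul_smul_comm]
      simp
  rw [hX]
  have h2X : (p : ℤ_[p]) ^ s ∣ 2 * coeff n (∑ i ∈ range (s + 1),
      ((-1) ^ i * (s.choose i : ℤ_[p])) • (E ^ (s - i) * ch p κ F H i)) := by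
    have h1 : 2 * coeff n (∑ i ∈ range (s + 1),
      ((-1) ^ i * (s.choose i : ℤ_[p])) • (E ^ (s - i) * ch p κ F H i)) =
      ∑ ab ∈ antidiagonal n, ∑ i ∈ range (s + 1), ((-1) ^ i * (s.choose i : ℤ_[p])) *
        coeff ab.1 (E ^ (s - i)) * (2 * coeff ab.2 (ch p κ F H i)) := by
      rw [Finset.sum_comm, map_sum, Finset.mul_sum]
      apply Finset.sum_congr rfl
      intro i _
      rw [coeff_smul, smul_eq_mul, coeff_mul, Finset.mul_sum, Finset.mul_sum]
      apply Finset.sum_congr rfl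
      intro ab _
      ring
    rw [h1]
    apply Finset.dvd_sum
    intro ab hab
    have hab2 : ab.2 < p := by
      have := Finset.HasAntidiagonal.mem_antidiagonal.1 hab
      omega
    exact hgood ab.2 hab2 ab.1
  have hu : IsUnit (2 : ℤ_[p]) := by
    rw [PadicInt.isUnit_iff]
    have := (PadicInt.norm_natCast_eq_one_iff (p := p) (n := 2)).2
      ((hpp.coprime_iff_not_dvd).2 h2u)
    exact_mod_cast this
  exact (hu.dvd_mul_left).1 h2X

end Pool.Agent.Work.MP_b73316_nt.V
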