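import Pool.Agent.Work.MP_b73316_nt.V.Defs
import Pool.Agent.Work.MP_b73316_nt.Pnt
import Pool.Agent.Work.MP_b73316_nt.Defs

/-!
Module Gam (size M): lower bound of `Γ(l) = ∑_{p ∈ B, p > l} ww(p, l) log p`.

PROOF.  Put `ε₁ = ε / 200` (or smaller), `C₁` from `theta_near ε₁`, `u = 12 (1 - δ)`, `θ_B`, `θ_G` the
sums of `log p` over the primes `p ≤ x` in `B`, in its complement `G = Bᶜ`: `θ = θ_B + θ_G`.
Exchange the sums: `Γ(l) = ∑_{s=1}^{11} Γ_s`, `Γ_s = ∑ log p` over the primes `p ∈ B`, `l < p`, with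
`s (p + 12) + 12 (D + E₀) < 12 l` (these `p` satisfy `p < 12 l ≤ N`, so `p ≤ N` is automatic).
Claim: `Γ_s ≥ max (0, u (l - D)/s - l) - 13 ε₁ l - η D - C₂` with `C₂ = C₂(E₀, C₁)`; the sum over `s` is
the claim of the theorem (`11 · 13 ε₁ ≤ ε`, `η ≥ 0`).
Proof of the claim: `Γ_s ≥ 0` always, so we may assume `x₀ := u (l - D)/s - l > 0` large.  Let
`Y = 12 (l - D - E₀)/s - 12` (real); the condition on `p` is `p < Y`.  If `Y - 1 ≤ l` then
`x₀ ≤ 12 (l - D)/s - l ≤ Y + 12 E₀ + 12 - l ≤ 12 E₀ + 13` and the claim holds with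
`C₂ ≥ 12 E₀ + 13`.  Otherwise let `y` be the natural number with `Y - 1 ≤ y < Y` (`y = ⌈Y⌉ - 1`),
`l ≤ y ≤ 12 l`.  `Γ_s ≥ θ_B(y) - θ_B(l) = θ(y) - θ_G(y) - θ(l) + θ_G(l) ≥ θ(y) - θ_G(y) - θ(l) ≥
(y - ε₁ y - C₁) - (δ y + η D) - (l + ε₁ l + C₁) ≥ (1-δ) y - l - 13 ε₁ l - η D - 2 C₁` and
`(1-δ) y ≥ (1-δ)(12 (l - D)/s - 12 E₀ - 13) ≥ u (l-D)/s - 12 E₀ - 13`.
-/

set_option autoImplicit false

open Finset Filter

namespace Pool.Agent.Work.MP_b73316_nt.V

open Classical in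
private theorem gm_split (B : Set ℕ) (x : ℕ) : thG B x + thG Bᶜ x = Chebyshev.theta x := by
  unfold thG Chebyshev.theta
  rw [Nat.floor_natCast]
  have e1 : (Ioc 0 x).filter (fun p => p.Prime) = (Icc 1 x).filter (fun p => p.Prime) := by
    congr 1
  have h1 := Finset.sum_filter_add_sum_filter_not ((Icc 1 x).filter (fun p => p.Prime))
    (fun p => p ∈ B) (fun p : ℕ => Real.log p)
  rw [Finset.filter_filter, Finset.filter_filter] at h1
  rw [e1, ← h1]
  congr 1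
  refine Finset.sum_congr ?_ fun _ _ => rfl
  ext p
  simp only [Finset.mem_filter, Set.mem_compl_iff]

open Classical in
private theorem gm_ww (S E p l : ℕ) : (ww S E p l : ℝ) * Real.log p =
    ∑ s ∈ Icc 1 S, if s * (p + 12) + 12 * E < 12 * l then Real.log p else 0 := by
  unfold ww
  rw [Finset.card_filter]
  push_cast
  rw [Finset.sum_mul]
  refine Finset.sum_congr rfl fun s _ => ?_
  split_ifs <;> simp

open Classical in
private theorem gm_claim {S : ℕ} {ε₁ C₁ : ℝ} (hε₁ : 0 < ε₁)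
    (hθ : ∀ x : ℕ, |Chebyshev.theta x - x| ≤ ε₁ * x + C₁) (E₀ : ℕ) {δ : ℝ} (hδ : 0 ≤ δ)
    (hδ1 : δ < 1) (B : Set ℕ) (D l N : ℕ) {η : ℝ} (hη : 0 ≤ η) (hlN : 12 * l ≤ N)
    (hG : ∀ x ≤ 12 * l, thG Bᶜ x ≤ δ * x + η * D) {s : ℕ} (hs : s ∈ Icc 1 S) :
    max 0 (12 * (1 - δ) * ((l : ℝ) - D) / s - l) - 13 * ε₁ * l - η * D -
      (2 * |C₁| + 12 * E₀ + 13) ≤
      ∑ p ∈ (Icc 1 N).filter (fun p => p.Prime ∧ p ∈ B ∧ l < p),
        if s * (p + 12) + 12 * (D + E₀) < 12 * l then Real.log p else 0 := by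
  rw [Finset.mem_Icc] at hs
  have hs1 : (1 : ℝ) ≤ s := by exact_mod_cast hs.1
  have hs0 : (0 : ℝ) < s := by linarith
  have hl0 : (0 : ℝ) ≤ l := Nat.cast_nonneg l
  have hE0 : (0 : ℝ) ≤ E₀ := Nat.cast_nonneg E₀
  have hDr : (0 : ℝ) ≤ D := Nat.cast_nonneg D
  have hC0 := abs_nonneg C₁
  have hηD : 0 ≤ η * D := mul_nonneg hη hDr
  have hεl : 0 ≤ 13 * ε₁ * l := by positivity
  have hS0 : 0 ≤ ∑ p ∈ (Icc 1 N).filter (fun p => p.Prime ∧ p ∈ B ∧ l < p),
      if s * (p + 12) + 12 * (D + E₀) < 12 * l then Real.log p else 0 := by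
    refine Finset.sum_nonneg fun p _ => ?_
    split_ifs
    · exact Real.log_natCast_nonneg p
    · exact le_rfl
  set x₀ : ℝ := 12 * (1 - δ) * ((l : ℝ) - D) / s - l with hx₀
  by_cases hsmall : x₀ ≤ 12 * E₀ + 12
  · have hmax : max 0 x₀ ≤ 12 * E₀ + 12 := max_le (by linarith) hsmall
    linarith
  · push Not at hsmall
    have hx0 : 0 < x₀ := by linarith
    rw [max_eq_right hx0.le]
    have hlD : (D : ℝ) < l := by
      by_contra h
      push Not at h
      have h1 : 12 * (1 - δ) * ((l : ℝ) - D) / s ≤ 0 := by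
        refine div_nonpos_of_nonpos_of_nonneg ?_ hs0.le
        exact mul_nonpos_of_nonneg_of_nonpos (by linarith) (by linarith)
      linarith
    have hup : x₀ ≤ 12 * ((l : ℝ) - D) / s - l := by
      rw [hx₀]
      have h1 : 12 * (1 - δ) * ((l : ℝ) - D) ≤ 12 * ((l : ℝ) - D) := by nlinarith
      have h2 := div_le_div_of_nonneg_right h1 hs0.le
      linarith
    have hE1 : 12 * (E₀ : ℝ) / s ≤ 12 * E₀ := div_le_self (by positivity) hs1
    have hcase : 12 * (D + E₀) < 12 * l := by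
      by_contra h
      push Not at h
      have h1 : 12 * (l : ℝ) ≤ 12 * (D + E₀) := by exact_mod_cast h
      have h2 : 12 * ((l : ℝ) - D) / s ≤ 12 * E₀ / s :=
        div_le_div_of_nonneg_right (by linarith) hs0.le
      linarith
    set M := 12 * l - 12 * (D + E₀) - 1 with hM
    set q := M / s with hq
    have hcond : ∀ p : ℕ, (s * (p + 12) + 12 * (D + E₀) < 12 * l ↔ p + 12 ≤ q) := by
      intro p
      rw [hq, Nat.le_div_iff_mul_le (by omega), mul_comm (p + 12) s]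
      omega
    have hq1 : M < s * (q + 1) := by
      rw [hq]
      have := Nat.lt_mul_div_succ M (by omega : 0 < s)
      exact this
    have hq1r : 12 * (l : ℝ) - 12 * (D + E₀) ≤ s * (q + 1) := by
      have h1 : 12 * l ≤ s * (q + 1) + 12 * (D + E₀) := by omega
      have h2 : 12 * (l : ℝ) ≤ s * (q + 1) + 12 * (D + E₀) := by exact_mod_cast h1
      linarith
    have hq2 : (12 * ((l : ℝ) - D) - 12 * E₀) / s ≤ q + 1 := by
      rw [div_le_iff₀ hs0]
      linarith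
    have hq3 : 12 * ((l : ℝ) - D) / s ≤ q + 1 + 12 * E₀ / s := by
      have e1 : (12 * ((l : ℝ) - D) - 12 * E₀) / s = 12 * ((l : ℝ) - D) / s - 12 * E₀ / s := by
        rw [sub_div]
      rw [e1] at hq2
      linarith
    have hql : 12 + l ≤ q := by
      by_contra h
      push Not at h
      have h1 : (q : ℝ) + 1 ≤ 12 + l := by exact_mod_cast h
      linarith
    have hqM : q ≤ 12 * l := by
      rw [hq]
      exact (Nat.div_le_self _ _).trans (by omega)
    set y := q - 12 with hy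
    have hly : l ≤ y := by omega
    have hy12 : y ≤ 12 * l := by omega
    have hyr : (y : ℝ) = q - 12 := by
      rw [hy, Nat.cast_sub (by omega)]
      norm_num
    -- lower bound of the sum
    have hB : thG B y - thG B l ≤ ∑ p ∈ (Icc 1 N).filter (fun p => p.Prime ∧ p ∈ B ∧ l < p),
        if s * (p + 12) + 12 * (D + E₀) < 12 * l then Real.log p else 0 := by
      rw [← Finset.sum_filter, sub_le_iff_le_add]
      unfold thG
      rw [← Finset.sum_union]
      · refine Finset.sum_le_sum_of_subset_of_nonneg ?_ fun p _ _ => Real.log_natCast_nonneg p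
        intro p hp
        simp only [Finset.mem_filter, Finset.mem_Icc, Finset.mem_union] at hp ⊢
        by_cases hpl : p ≤ l
        · exact Or.inr ⟨⟨hp.1.1, hpl⟩, hp.2⟩
        · refine Or.inl ⟨⟨⟨hp.1.1, by omega⟩, hp.2.1, hp.2.2, by omega⟩, ?_⟩
          rw [hcond]
          omega
      · rw [Finset.disjoint_left]
        intro p hp hp'
        simp only [Finset.mem_filter, Finset.mem_Icc] at hp hp'
        omega
    have t1 := gm_split B y
    have t2 := gm_split B l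
    have t3 := hG y hy12
    have t4 : 0 ≤ thG Bᶜ l := by
      unfold thG
      exact Finset.sum_nonneg fun p _ => Real.log_natCast_nonneg p
    have t5 := (abs_le.1 (hθ y)).1
    have t6 := (abs_le.1 (hθ l)).2
    have hyl : (y : ℝ) ≤ 12 * l := by exact_mod_cast hy12
    have t7 : ε₁ * y ≤ ε₁ * (12 * l) := mul_le_mul_of_nonneg_left hyl hε₁.le
    have t8 := le_abs_self C₁
    have t9 : 12 * (1 - δ) * ((l : ℝ) - D) / s ≤ (1 - δ) * (q + 1 + 12 * E₀ / s) := by
      have e1 : 12 * (1 - δ) * ((l : ℝ) - D) / s = (1 - δ) * (12 * ((l : ℝ) - D) / s) := by ring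
      rw [e1]
      exact mul_le_mul_of_nonneg_left hq3 (by linarith)
    have t10 : (1 - δ) * (q + 1 + 12 * E₀ / s) ≤ (1 - δ) * y + (13 + 12 * E₀) := by
      have e1 : (1 - δ) * (q + 1 + 12 * E₀ / s) = (1 - δ) * y + (1 - δ) * (13 + 12 * E₀ / s) := by
        rw [hyr]
        ring
      rw [e1]
      have h0 : 0 ≤ 12 * (E₀ : ℝ) / s := by positivity
      have h1 : (1 - δ) * (13 + 12 * (E₀ : ℝ) / s) ≤ 1 * (13 + 12 * (E₀ : ℝ) / s) :=
        mul_le_mul_of_nonneg_right (by linarith) (by linarith)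
      linarith
    rw [hx₀]
    nlinarith

open Classical in
theorem gam (S : ℕ) (hS : S ≤ 11) (E₀ : ℕ) (δ ε : ℝ) (hδ : 0 ≤ δ) (hδ1 : δ < 1) (hε : 0 < ε) :
    ∃ C : ℝ, ∀ (B : Set ℕ) (D l N : ℕ) (η : ℝ), 0 ≤ η → 12 * l ≤ N →
      (∀ x ≤ 12 * l, thG Bᶜ x ≤ δ * x + η * D) →
      GG S (12 * (1 - δ)) D l - ε * l - 11 * η * D - C ≤
        ∑ p ∈ (Icc 1 N).filter (fun p => p.Prime ∧ p ∈ B ∧ l < p),
          (ww S (D + E₀) p l : ℝ) * Real.log p := by
  obtain ⟨C₁, hC₁⟩ := theta_near (ε / 200) (by positivity)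
  refine ⟨11 * (2 * |C₁| + 12 * E₀ + 13), ?_⟩
  intro B D l N η hη hlN hG
  have hsum : ∑ p ∈ (Icc 1 N).filter (fun p => p.Prime ∧ p ∈ B ∧ l < p),
      (ww S (D + E₀) p l : ℝ) * Real.log p = ∑ s ∈ Icc 1 S,
      ∑ p ∈ (Icc 1 N).filter (fun p => p.Prime ∧ p ∈ B ∧ l < p),
        if s * (p + 12) + 12 * (D + E₀) < 12 * l then Real.log p else 0 := by
    rw [Finset.sum_comm]
    exact Finset.sum_congr rfl fun p _ => gm_ww S (D + E₀) p l
  rw [hsum]
  have h1 := Finset.sum_le_sum fun s (hs : s ∈ Icc (1 : ℕ) S) =>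
    gm_claim (by positivity : (0 : ℝ) < ε / 200) hC₁ E₀ hδ hδ1 B D l N hη hlN hG hs
  refine le_trans ?_ h1
  rw [Finset.sum_sub_distrib, Finset.sum_sub_distrib, Finset.sum_sub_distrib, Finset.sum_const,
    Finset.sum_const, Finset.sum_const, Nat.card_Icc]
  unfold GG
  simp only [nsmul_eq_mul]
  have hl0 : (0 : ℝ) ≤ l := Nat.cast_nonneg l
  have h2 : 0 ≤ ε * l := by positivity
  have h3 : (S : ℝ) ≤ 11 := by exact_mod_cast hS
  have h4 : (S : ℝ) * (13 * (ε / 200) * l) ≤ 11 * (13 * (ε / 200) * l) :=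
    mul_le_mul_of_nonneg_right h3 (by positivity)
  have h5 : (S : ℝ) * (η * D) ≤ 11 * (η * D) :=
    mul_le_mul_of_nonneg_right h3 (mul_nonneg hη (Nat.cast_nonneg D))
  have h6 : (S : ℝ) * (2 * |C₁| + 12 * E₀ + 13) ≤ 11 * (2 * |C₁| + 12 * E₀ + 13) :=
    mul_le_mul_of_nonneg_right h3 (by positivity)
  rw [Nat.add_sub_cancel]
  linarith

end Pool.Agent.Work.MP_b73316_nt.V
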