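import Pool.Agent.Work.MP_b73316_nt.V.Defs
import Pool.Agent.Work.MP_b73316_nt.V.NvV
import Pool.Agent.Work.MP_b73316_nt.Lim3
import Pool.Agent.Work.MP_b73316_nt.Defs

/-!
Module CntM (size S-M): primes that are not bad have a nonzero value; counting.

PROOF.  `nv_of`: `p ≥ P ≥ 3` prime and not `Bad`: some `i ∈ Icc 1 K` with `zs p (2 kap i + 1)` not
tending to `0`; `kap i ≥ 1` (strictly increasing, `i ≥ 1`), so `2 kap i + 1 ≥ 3` is odd, by
`zs_tendsto` it tends to some `L`, and `L ≠ 0`.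
`thG_le`: the primes `p ≤ x` in `Bᶜ` are `< P` or have `NV p n` for some `n ∈ S`; the first contribute
at most `C = ∑_{p < P} log p`, the others at most `(cnt S x) log x` (each `log p ≤ log x`,
`x ≥ p ≥ 1`).
-/

set_option autoImplicit false

open Finset Filter

namespace Pool.Agent.Work.MP_b73316_nt.V

open Classical in
/-- number of the primes `p ≤ X` with `ζ_p(n) ≠ 0` for some `n ∈ S` -/
noncomputable def cnt (T : ℕ) (S : Finset ℕ) (X : ℕ) : ℕ :=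
  ((Icc 1 X).filter (fun p => ∃ n ∈ S, NV T p n)).card

theorem nv_of (T : ℕ) (hT : 1 ≤ T) (kap : ℕ → ℕ) (hk : StrictMono kap) (K P p : ℕ) (hP : 3 ≤ P) (hp : p.Prime)
    (hPp : P ≤ p) (hb : ¬ Bad T kap K P p) : ∃ i ∈ Icc 1 K, NV T p (2 * kap i + 1) := by
  haveI := Fact.mk hp
  have h1 : ¬ ∀ i ∈ Icc 1 K, ‖VV p (-(2 * kap i : ℤ)) T‖ ≤ (p : ℝ) ^ (-(T : ℤ)) :=
    fun h => hb ⟨hPp, hp, h⟩
  push Not at h1
  obtain ⟨i, hi, h0⟩ := h1
  have hi1 : 1 ≤ i := (mem_Icc.1 hi).1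
  have hk1 : 1 ≤ kap i := by
    have := hk.le_apply (x := i)
    omega
  exact ⟨i, hi, nv_VV p (by omega) (kap i) T hk1 hT h0⟩

theorem thG_le (T : ℕ) (hT : 1 ≤ T) (kap : ℕ → ℕ) (hk : StrictMono kap) (K P : ℕ) (hP : 3 ≤ P) (S : Finset ℕ)
    (hS : ∀ i ∈ Icc 1 K, 2 * kap i + 1 ∈ S) :
    ∃ C : ℝ, ∀ x : ℕ, thG {p | Bad T kap K P p}ᶜ x ≤ C + cnt T S x * Real.log x := by
  classical
  refine ⟨∑ p ∈ range P, Real.log p, fun x => ?_⟩
  set A : Finset ℕ := (Icc 1 x).filter (fun p => ∃ n ∈ S, NV T p n) with hA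
  have hcnt : cnt T S x = A.card := by
    unfold cnt
    congr!
  have hlog : ∀ p : ℕ, 0 ≤ Real.log (p : ℝ) := fun p => Real.log_natCast_nonneg p
  have hsub : (Icc 1 x).filter (fun p => p.Prime ∧ p ∈ {p | Bad T kap K P p}ᶜ) ⊆ range P ∪ A := by
    intro p hp
    rw [mem_filter] at hp
    obtain ⟨hp1, hpp, hpb⟩ := hp
    by_cases hPp : p < P
    · exact mem_union_left _ (mem_range.2 hPp)
    · refine mem_union_right _ (mem_filter.2 ⟨hp1, ?_⟩)
      obtain ⟨i, hi, hnv⟩ := nv_of T hT kap hk K P p hP hpp (not_lt.1 hPp) hpb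
      exact ⟨_, hS i hi, hnv⟩
  have h1 : thG {p | Bad T kap K P p}ᶜ x ≤ ∑ p ∈ range P ∪ A, Real.log (p : ℝ) := by
    unfold thG
    refine le_trans (le_of_eq ?_) (Finset.sum_le_sum_of_subset_of_nonneg hsub fun p _ _ => hlog p)
    congr!
  have h2 : ∑ p ∈ range P ∪ A, Real.log (p : ℝ) ≤
      ∑ p ∈ range P, Real.log (p : ℝ) + ∑ p ∈ A, Real.log (p : ℝ) := by
    rw [← Finset.sum_union_inter]
    exact le_add_of_nonneg_right (Finset.sum_nonneg fun p _ => hlog p)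
  have h3 : ∑ p ∈ A, Real.log (p : ℝ) ≤ A.card * Real.log x := by
    rw [← nsmul_eq_mul]
    refine Finset.sum_le_card_nsmul _ _ _ fun p hp => ?_
    have hpx := mem_Icc.1 (mem_filter.1 hp).1
    exact Real.log_le_log (by exact_mod_cast hpx.1) (by exact_mod_cast hpx.2)
  rw [hcnt]
  linarith

end Pool.Agent.Work.MP_b73316_nt.V
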