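import Pool.Agent.Work.MP_b73316_nt.V.Defs
import Pool.Agent.Work.MP_b73316_nt.Defs

/-!
Module CoreA (size S): scaling of `GG`.

PROOF.  With `D = 4 n`, `M = m (4 n + 1) = m D + m`: `u (M - D)/s - M = D (u (m-1)/s - m) +
m (u/s - 1) ≥ D (u (m-1)/s - m) - m`, so `max 0 (..) ≥ D max 0 (u (m-1)/s - m) - m` and
`GG u D M ≥ D · GG u 1 m - 11 m`.  Let `γ = GG u 1 m - β m > 0`.  Take `η > 0` with `2 η m ≤ γ/2`
(e.g. `η = γ/(4 m + 4)`); then `(β + η) M ≤ β m D + γ D/4 + |β| m + η m` and this is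
`≤ D (β m + γ) - 11 m` when `D γ /2 ≥ |β| m + η m + 11 m` and `η m ≤ γ/4`.
-/

set_option autoImplicit false

open Finset

namespace Pool.Agent.Work.MP_b73316_nt.V

theorem coreA (S : ℕ) (hS : S ≤ 11) (u m β : ℝ) (hu : 0 ≤ u) (hm : 0 ≤ m) (c1 : β * m < GG S u 1 m) :
    ∃ (η : ℝ) (n₀ : ℕ), 0 < η ∧ ∀ n : ℕ, n₀ ≤ n →
      (β + η) * (m * (4 * n + 1)) ≤ GG S u (4 * n) (m * (4 * n + 1)) := by
  have key : ∀ D : ℝ, 0 ≤ D → D * GG S u 1 m - 11 * m ≤ GG S u D (m * (D + 1)) := by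
    intro D hD
    unfold GG
    have h11 : ∑ _s ∈ Icc (1 : ℕ) S, m ≤ (11 : ℝ) * m := by
      rw [Finset.sum_const, Nat.card_Icc, Nat.add_sub_cancel, nsmul_eq_mul]
      exact mul_le_mul_of_nonneg_right (by exact_mod_cast hS) hm
    refine (sub_le_sub_left h11 _).trans ?_
    rw [Finset.mul_sum, ← Finset.sum_sub_distrib]
    refine Finset.sum_le_sum fun s hs => ?_
    have hs1 : (1 : ℝ) ≤ s := by
      have := (Finset.mem_Icc.mp hs).1
      exact_mod_cast this
    have hs0 : (0 : ℝ) < s := by linarith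
    have h2 : u * (m * (D + 1) - D) / s - m * (D + 1) =
        D * (u * (m - 1) / s - m) + (u * m / s - m) := by
      field_simp
      ring
    have h3 : 0 ≤ u * m / s := by positivity
    rcases le_total (u * (m - 1) / s - m) 0 with h | h
    · rw [max_eq_left h]
      have := le_max_left (0 : ℝ) (u * (m * (D + 1) - D) / s - m * (D + 1))
      linarith
    · rw [max_eq_right h]
      have := le_max_right (0 : ℝ) (u * (m * (D + 1) - D) / s - m * (D + 1))
      linarith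
  set γ : ℝ := GG S u 1 m - β * m with hγ
  have hγ0 : 0 < γ := by linarith
  obtain ⟨n₀, hn₀⟩ := exists_nat_ge ((|β| * m + γ + 11 * m) / γ)
  refine ⟨γ / (2 * (m + 1)), n₀, by positivity, fun n hn => ?_⟩
  have hk := key (4 * n) (by positivity)
  refine le_trans ?_ hk
  have hn' : (|β| * m + γ + 11 * m) / γ ≤ n := le_trans hn₀ (by exact_mod_cast hn)
  rw [div_le_iff₀ hγ0] at hn'
  have hη : γ / (2 * (m + 1)) * m ≤ γ / 2 := by
    rw [div_mul_eq_mul_div, div_le_div_iff₀ (by positivity) (by norm_num)]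
    nlinarith
  have hb : β * m ≤ |β| * m := mul_le_mul_of_nonneg_right (le_abs_self β) hm
  have hG : GG S u 1 m = β * m + γ := by rw [hγ]; ring
  have hn0 : (0 : ℝ) ≤ n := Nat.cast_nonneg n
  have hηn : γ / (2 * (m + 1)) * m * (4 * n + 1) ≤ γ / 2 * (4 * n + 1) :=
    mul_le_mul_of_nonneg_right hη (by positivity)
  rw [hG]
  have hbm : 0 ≤ |β| * m := by positivity
  nlinarith

end Pool.Agent.Work.MP_b73316_nt.V
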