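import Pool.Agent.Work.MP_b73316_nt.V.Defs
import Pool.Agent.Work.MP_b73316_nt.Defs

/-!
Module Exc (size S-M): the exchange argument (no zero estimate is needed).

PROOF.  `l j ≥ j` (`StrictMono`, `StrictMono.le_apply`-like for `Fin M → ℕ`; induction).  So
`∑ b_j (l_j - j) ≤ B ∑ (l_j - j)` and
`[∑ (GG(l_j) - (lam + b_j) l_j)] - [∑ (GG(j) - (lam + b_j) j)] ≥ ∑ g(l_j) - ∑ g(j)` with
`g(x) = GG u D x - (lam + B) x`.  `g` is convex on `ℝ` (each `max 0 (affine)` is convex), `g(0) = 0`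
(`u * (0 - D)/s - 0 ≤ 0`), `g(M) ≥ 0` by `hc`.  Hence for `x ≥ M > y ≥ 0`: `g(x) ≥ g(M)` (convexity:
the slope on `[M, x]` is at least the slope on `[0, M]`, which is `≥ 0`) and
`g(y) ≤ max (g(0), g(M)) = g(M)`.  So `g(x) ≥ g(y)`.  Finally, for an injective `l : Fin M → ℕ`, let
`L` be its image and `I = {0..M-1}`; `∑_L g - ∑_I g = ∑_{L \ I} g - ∑_{I \ L} g`, the two sets have the
same cardinality, the elements of `L \ I` are `≥ M`, so the difference is `≥ 0` (with
`c = g(M)`: `g ≥ c` on `L \ I`, `g ≤ c` on `I \ L`).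
-/

set_option autoImplicit false

open Finset

namespace Pool.Agent.Work.MP_b73316_nt.V

private theorem GG_star {S : ℕ} {u D x t : ℝ} (hu : 0 ≤ u) (hD : 0 ≤ D) (h0 : 0 ≤ t) (h1 : t ≤ 1) :
    GG S u D (t * x) ≤ t * GG S u D x := by
  unfold GG
  rw [mul_sum]
  refine sum_le_sum fun s hs => ?_
  have hs1 : (1 : ℝ) ≤ s := by exact_mod_cast (mem_Icc.1 hs).1
  have hs0 : (0 : ℝ) < s := by linarith
  refine max_le (mul_nonneg h0 (le_max_left _ _)) ?_
  have e1 : u * (t * x - D) / s - t * x =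
      t * (u * (x - D) / s - x) - u * D * (1 - t) / s := by
    field_simp
    ring
  have e2 : 0 ≤ u * D * (1 - t) / s := by
    have : 0 ≤ 1 - t := by linarith
    positivity
  have e3 : t * (u * (x - D) / s - x) ≤ t * max 0 (u * (x - D) / s - x) :=
    mul_le_mul_of_nonneg_left (le_max_right _ _) h0
  rw [e1]
  linarith

private theorem sum_exc {M : ℕ} {g : ℕ → ℝ} {c : ℝ} (h1 : ∀ x, M ≤ x → c ≤ g x)
    (h2 : ∀ y, y < M → g y ≤ c) (l : Fin M → ℕ) (hl : Function.Injective l) :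
    ∑ j : Fin M, g (j : ℕ) ≤ ∑ j : Fin M, g (l j) := by
  classical
  have e1 : ∑ j : Fin M, g (l j) = ∑ x ∈ univ.image l, g x := by
    rw [sum_image (fun a _ b _ h => hl h)]
  have e2 : ∑ j : Fin M, g (j : ℕ) = ∑ x ∈ range M, g x := Fin.sum_univ_eq_sum_range g M
  rw [e1, e2]
  set L := univ.image l with hL
  have hc : (range M).card = L.card := by
    rw [hL, card_image_of_injective _ hl, card_range, card_univ, Fintype.card_fin]
  have hc2 : (range M \ L).card = (L \ range M).card := card_sdiff_comm hc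
  have e3 : ∑ x ∈ range M, g x = ∑ x ∈ range M \ L, g x + ∑ x ∈ range M ∩ L, g x := by
    rw [add_comm, sum_inter_add_sum_sdiff]
  have e4 : ∑ x ∈ L, g x = ∑ x ∈ L \ range M, g x + ∑ x ∈ range M ∩ L, g x := by
    rw [add_comm, inter_comm, sum_inter_add_sum_sdiff]
  have e5 : ∑ x ∈ range M \ L, g x ≤ ((range M \ L).card : ℝ) * c := by
    rw [← nsmul_eq_mul]
    refine sum_le_card_nsmul _ _ _ fun x hx => h2 x ?_
    exact mem_range.1 (mem_sdiff.1 hx).1
  have e6 : ((L \ range M).card : ℝ) * c ≤ ∑ x ∈ L \ range M, g x := by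
    rw [← nsmul_eq_mul]
    refine card_nsmul_le_sum _ _ _ fun x hx => h1 x ?_
    have := (mem_sdiff.1 hx).2
    rw [mem_range] at this
    omega
  rw [hc2] at e5
  rw [e3, e4]
  linarith

theorem exc (S M : ℕ) (u D lam B : ℝ) (hu : 0 ≤ u) (hD : 0 ≤ D)
    (b : Fin M → ℝ) (hb : ∀ j, b j ≤ B) (l : Fin M → ℕ) (hl : StrictMono l)
    (hc : (lam + B) * M ≤ GG S u D M) :
    ∑ j : Fin M, (GG S u D (j : ℕ) - (lam + b j) * (j : ℕ)) ≤
      ∑ j : Fin M, (GG S u D (l j) - (lam + b j) * (l j)) := by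
  rcases Nat.eq_zero_or_pos M with rfl | hM
  · simp
  have hM' : (0 : ℝ) < M := by exact_mod_cast hM
  set g : ℕ → ℝ := fun x => GG S u D x - (lam + B) * x with hg
  have hgM : 0 ≤ g M := by
    show 0 ≤ GG S u D M - (lam + B) * M
    linarith
  have h1 : ∀ x : ℕ, M ≤ x → g M ≤ g x := by
    intro x hx
    have hx' : (M : ℝ) ≤ x := by exact_mod_cast hx
    have hx0 : (0 : ℝ) < x := by linarith
    have ht0 : 0 ≤ (M : ℝ) / x := by positivity
    have ht1 : (M : ℝ) / x ≤ 1 := (div_le_one hx0).2 hx'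
    have h3 := GG_star (S := S) (x := (x : ℝ)) hu hD ht0 ht1
    rw [div_mul_cancel₀ _ hx0.ne'] at h3
    have h4 : g M ≤ (M : ℝ) / x * g x := by
      show GG S u D M - (lam + B) * M ≤ (M : ℝ) / x * (GG S u D x - (lam + B) * x)
      have h5 : (M : ℝ) / x * (GG S u D x - (lam + B) * x) =
          (M : ℝ) / x * GG S u D x - (lam + B) * M := by
        field_simp
      rw [h5]
      linarith
    have h6 : 0 ≤ g x := by
      by_contra hn
      have h7 : (M : ℝ) / x * g x < 0 :=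
        mul_neg_of_pos_of_neg (by positivity) (not_le.1 hn)
      linarith
    calc g M ≤ (M : ℝ) / x * g x := h4
      _ ≤ 1 * g x := mul_le_mul_of_nonneg_right ht1 h6
      _ = g x := one_mul _
  have h2 : ∀ y : ℕ, y < M → g y ≤ g M := by
    intro y hy
    have hy' : (y : ℝ) ≤ M := by exact_mod_cast hy.le
    have ht0 : 0 ≤ (y : ℝ) / M := by positivity
    have ht1 : (y : ℝ) / M ≤ 1 := (div_le_one hM').2 hy'
    have h3 := GG_star (S := S) (x := (M : ℝ)) hu hD ht0 ht1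
    rw [div_mul_cancel₀ _ hM'.ne'] at h3
    have h4 : g y ≤ (y : ℝ) / M * g M := by
      show GG S u D y - (lam + B) * y ≤ (y : ℝ) / M * (GG S u D M - (lam + B) * M)
      have h5 : (y : ℝ) / M * (GG S u D M - (lam + B) * M) =
          (y : ℝ) / M * GG S u D M - (lam + B) * y := by
        field_simp
      rw [h5]
      linarith
    calc g y ≤ (y : ℝ) / M * g M := h4
      _ ≤ 1 * g M := mul_le_mul_of_nonneg_right ht1 hgM
      _ = g M := one_mul _
  have hle : ∀ (n : ℕ) (h : n < M), n ≤ l ⟨n, h⟩ := by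
    intro n
    induction n with
    | zero => exact fun h => Nat.zero_le _
    | succ n ih =>
      intro h
      have h3 := ih (by omega)
      have h4 : l ⟨n, by omega⟩ < l ⟨n + 1, h⟩ := hl (by simp [Fin.lt_def])
      omega
  have hs := sum_exc h1 h2 l hl.injective
  have ht : ∑ j : Fin M, (g (l j) - g (j : ℕ)) ≤
      ∑ j : Fin M, ((GG S u D (l j) - (lam + b j) * (l j)) -
        (GG S u D (j : ℕ) - (lam + b j) * (j : ℕ))) := by
    refine sum_le_sum fun j _ => ?_
    show GG S u D (l j) - (lam + B) * (l j) - (GG S u D (j : ℕ) - (lam + B) * (j : ℕ)) ≤ _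
    have h3 : ((j : ℕ) : ℝ) ≤ l j := by exact_mod_cast hle j j.2
    have h4 := hb j
    nlinarith [mul_nonneg (sub_nonneg.2 h4) (sub_nonneg.2 h3)]
  have e1 : ∑ j : Fin M, (g (l j) - g (j : ℕ)) = ∑ j : Fin M, g (l j) - ∑ j : Fin M, g (j : ℕ) :=
    sum_sub_distrib _ _
  have e2 : ∑ j : Fin M, ((GG S u D (l j) - (lam + b j) * (l j)) -
      (GG S u D (j : ℕ) - (lam + b j) * (j : ℕ))) =
      ∑ j : Fin M, (GG S u D (l j) - (lam + b j) * (l j)) -
        ∑ j : Fin M, (GG S u D (j : ℕ) - (lam + b j) * (j : ℕ)) := sum_sub_distrib _ _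
  rw [e1, e2] at ht
  linarith

end Pool.Agent.Work.MP_b73316_nt.V
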