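import Pool.Agent.Work.MP_b73316_nt.V.Defs
import Pool.Agent.Work.MP_b73316_nt.Defs

/-!
Module Idl (size M): the ideal sum.

PROOF.  `M = m (D+1)`, `m = K + 1`.  (1) For each `s ∈ {1..11}`:
`∑_{j<M} max (0, u (j-D)/s - j) ≥ (D²/2) ((u-s)m-u)²/(s(u-s))` if `u < (u-s) m`, and `≥ 0` always.
Here `u - s > 0` (`u < (u - s) m`, `u > 0`, `m > 0`).  Put `A = (u-s)/s > 0`, `B = u D/s`:
`φ(x) = max (0, A x - B)` is nondecreasing, so `∑_{j=0}^{M-1} φ(j) ≥ ∫_0^{M-1} φ(x) dx ≥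
(A (M-1) - B)²/(2A)` when `A (M-1) ≥ B` (or elementary: with `S(n) = ∑_{j<n} φ(j)` prove by induction
on `n`: `S(n+1) ≥ (A n - B)₊²/(2A)`, because
`(A n - B)₊² - (A (n-1) - B)₊² ≤ 2A (A n - B)₊`).
`M - 1 ≥ m D`, so `A (M-1) - B ≥ D (A m - u/s) = D ((u-s)m - u)/s ≥ 0`, and
`(D ((u-s)m-u)/s)²/(2A) = (D²/2) ((u-s)m-u)²/(s(u-s))`.
(2) `∑_{j<M} lam j ≤ lam M²/2 = lam m² (D+1)²/2`, and
`∑_{j<M} bb(j/(D+1)) j = ∑_{i<m} bb_i ∑_{i(D+1) ≤ j < (i+1)(D+1)} j ≤ ∑_i bb_i ((i+1)² - i²)(D+1)²/2`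
(`∑_{a ≤ j < b} j ≤ (b² - a²)/2`), `(i+1)² - i² = 2i + 1`.
-/

set_option autoImplicit false

open Finset

namespace Pool.Agent.Work.MP_b73316_nt.V

private theorem sum_block (f : ℕ → ℝ) (D m : ℕ) : ∑ j ∈ range (m * (D + 1)), f j =
    ∑ i ∈ range m, ∑ e ∈ range (D + 1), f (i * (D + 1) + e) := by
  induction m with
  | zero => simp
  | succ m ih =>
    rw [sum_range_succ, ← ih, show (m + 1) * (D + 1) = m * (D + 1) + (D + 1) by ring,
      Finset.sum_range_add]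

private theorem sum_id (n : ℕ) : ∑ j ∈ range n, (j : ℝ) ≤ (n : ℝ) ^ 2 / 2 := by
  induction n with
  | zero => simp
  | succ n ih =>
    rw [sum_range_succ]
    push_cast
    nlinarith

private theorem pos_step {A x : ℝ} (hA : 0 < A) :
    (max 0 (x + A)) ^ 2 / (2 * A) ≤ (max 0 x) ^ 2 / (2 * A) + max 0 (x + A) := by
  have h1 : (max 0 x) ^ 2 / (2 * A) + max 0 (x + A) =
      ((max 0 x) ^ 2 + 2 * A * max 0 (x + A)) / (2 * A) := by
    field_simp
  rw [h1]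
  apply div_le_div_of_nonneg_right _ (by positivity)
  rcases le_total x 0 with hx | hx
  · rw [max_eq_left hx]
    rcases le_total (x + A) 0 with hy | hy
    · rw [max_eq_left hy]
      norm_num
    · rw [max_eq_right hy]
      nlinarith
  · rw [max_eq_right hx, max_eq_right (by linarith : 0 ≤ x + A)]
    nlinarith

private theorem pos_sum {A B : ℝ} (hA : 0 < A) (hB : 0 ≤ B) (n : ℕ) :
    (max 0 (A * n - B)) ^ 2 / (2 * A) ≤ ∑ j ∈ range (n + 1), max 0 (A * (j : ℝ) - B) := by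
  induction n with
  | zero =>
    rw [sum_range_succ, range_zero, sum_empty, zero_add, Nat.cast_zero, mul_zero, zero_sub,
      max_eq_left (by linarith)]
    norm_num
  | succ n ih =>
    rw [sum_range_succ]
    have h := pos_step (x := A * n - B) hA
    have e : A * ((n + 1 : ℕ) : ℝ) - B = A * n - B + A := by push_cast; ring
    rw [e]
    linarith

private theorem one_s (K D : ℕ) (u s : ℝ) (hu : 0 < u) (hs : 0 < s) :
    (D : ℝ) ^ 2 / 2 * (if u < (u - s) * ((K : ℝ) + 1) then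
      ((u - s) * ((K : ℝ) + 1) - u) ^ 2 / (s * (u - s)) else 0) ≤
    ∑ j ∈ range ((K + 1) * (D + 1)), max 0 (u * ((j : ℝ) - D) / s - j) := by
  split_ifs with h
  · have hm : (0 : ℝ) < (K : ℝ) + 1 := by positivity
    have hus : 0 < u - s := by
      by_contra hc
      push Not at hc
      nlinarith
    have hA : 0 < (u - s) / s := div_pos hus hs
    obtain ⟨n, hn⟩ : ∃ n, (K + 1) * (D + 1) = n + 1 :=
      ⟨(K + 1) * (D + 1) - 1, by
        have : 0 < (K + 1) * (D + 1) := by positivity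
        omega⟩
    have hn1 : (K + 1) * D ≤ n := by
      have : (K + 1) * (D + 1) = (K + 1) * D + (K + 1) := by ring
      omega
    have hn2 : ((K : ℝ) + 1) * D ≤ n := by exact_mod_cast hn1
    rw [hn]
    have hB : 0 ≤ u * D / s := by positivity
    have h1 := pos_sum hA hB n
    have h2 : ∀ j : ℕ, (u - s) / s * (j : ℝ) - u * D / s = u * ((j : ℝ) - D) / s - j := by
      intro j
      field_simp
      ring
    rw [sum_congr rfl fun j _ => by rw [h2 j]] at h1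
    refine le_trans ?_ h1
    have h3 : D * ((u - s) * ((K : ℝ) + 1) - u) / s ≤ max 0 ((u - s) / s * n - u * D / s) := by
      refine le_trans ?_ (le_max_right _ _)
      have h4 : (u - s) / s * (((K : ℝ) + 1) * D) ≤ (u - s) / s * n :=
        mul_le_mul_of_nonneg_left hn2 hA.le
      have h5 : D * ((u - s) * ((K : ℝ) + 1) - u) / s =
          (u - s) / s * (((K : ℝ) + 1) * D) - u * D / s := by
        field_simp
      linarith
    have h6 : 0 ≤ D * ((u - s) * ((K : ℝ) + 1) - u) / s := by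
      apply div_nonneg _ hs.le
      apply mul_nonneg (Nat.cast_nonneg _)
      linarith
    have h7 := pow_le_pow_left₀ h6 h3 2
    have h8 : (D : ℝ) ^ 2 / 2 * (((u - s) * ((K : ℝ) + 1) - u) ^ 2 / (s * (u - s))) =
        (D * ((u - s) * ((K : ℝ) + 1) - u) / s) ^ 2 / (2 * ((u - s) / s)) := by
      field_simp
    rw [h8]
    exact div_le_div_of_nonneg_right h7 (by positivity)
  · rw [mul_zero]
    exact sum_nonneg fun _ _ => le_max_left _ _

theorem idl (S : ℕ) (kap : ℕ → ℕ) (K D : ℕ) (u lam : ℝ) (hu : 0 < u) (hlam : 0 ≤ lam) :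
    (D : ℝ) ^ 2 / 2 * gain S u (K + 1) - ((D : ℝ) + 1) ^ 2 / 2 *
      (lam * (K + 1) ^ 2 + ∑ i ∈ range (K + 1), (bb kap i : ℝ) * (2 * i + 1)) ≤
    ∑ j : Fin ((K + 1) * (D + 1)), (GG S u D (j : ℕ) -
      (lam + bb kap ((j : ℕ) / (D + 1))) * (j : ℕ)) := by
  rw [Fin.sum_univ_eq_sum_range (fun j : ℕ => GG S u D (j : ℝ) -
    (lam + (bb kap (j / (D + 1)) : ℝ)) * (j : ℝ)) ((K + 1) * (D + 1))]
  have e1 : ∑ j ∈ range ((K + 1) * (D + 1)), (GG S u D (j : ℝ) -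
      (lam + (bb kap (j / (D + 1)) : ℝ)) * (j : ℝ)) =
      ∑ j ∈ range ((K + 1) * (D + 1)), GG S u D (j : ℝ) -
      (lam * ∑ j ∈ range ((K + 1) * (D + 1)), (j : ℝ) +
      ∑ j ∈ range ((K + 1) * (D + 1)), (bb kap (j / (D + 1)) : ℝ) * (j : ℝ)) := by
    rw [mul_sum, ← sum_add_distrib, ← sum_sub_distrib]
    refine sum_congr rfl fun j _ => ?_
    ring
  rw [e1]
  have h1 : (D : ℝ) ^ 2 / 2 * gain S u (K + 1) ≤
      ∑ j ∈ range ((K + 1) * (D + 1)), GG S u D (j : ℝ) := by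
    unfold gain GG
    rw [sum_comm, mul_sum]
    refine sum_le_sum fun s hs => ?_
    rw [mem_Icc] at hs
    have hs0 : (0 : ℝ) < s := by
      have : 0 < s := by omega
      exact_mod_cast this
    exact one_s K D u s hu hs0
  have h2 : lam * ∑ j ∈ range ((K + 1) * (D + 1)), (j : ℝ) ≤
      ((D : ℝ) + 1) ^ 2 / 2 * (lam * (K + 1) ^ 2) := by
    have h3 := sum_id ((K + 1) * (D + 1))
    push_cast at h3
    calc lam * ∑ j ∈ range ((K + 1) * (D + 1)), (j : ℝ) ≤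
        lam * ((((K : ℝ) + 1) * ((D : ℝ) + 1)) ^ 2 / 2) := mul_le_mul_of_nonneg_left h3 hlam
      _ = _ := by ring
  have h3 : ∑ j ∈ range ((K + 1) * (D + 1)), (bb kap (j / (D + 1)) : ℝ) * (j : ℝ) ≤
      ((D : ℝ) + 1) ^ 2 / 2 * ∑ i ∈ range (K + 1), (bb kap i : ℝ) * (2 * i + 1) := by
    rw [sum_block (fun j : ℕ => (bb kap (j / (D + 1)) : ℝ) * (j : ℝ)) D (K + 1), mul_sum]
    refine sum_le_sum fun i _ => ?_
    have h4 : ∀ e ∈ range (D + 1), (bb kap ((i * (D + 1) + e) / (D + 1)) : ℝ) *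
        ((i * (D + 1) + e : ℕ) : ℝ) = (bb kap i : ℝ) * ((i : ℝ) * ((D : ℝ) + 1) + e) := by
      intro e he
      rw [mem_range] at he
      have h5 : (i * (D + 1) + e) / (D + 1) = i := by
        rw [Nat.add_comm, Nat.add_mul_div_right _ _ (by omega), Nat.div_eq_of_lt he, zero_add]
      rw [h5]
      push_cast
      ring
    rw [sum_congr rfl h4, ← mul_sum, sum_add_distrib, sum_const, card_range, nsmul_eq_mul]
    have h6 := sum_id (D + 1)
    have h7 : (0 : ℝ) ≤ (bb kap i : ℝ) := Nat.cast_nonneg _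
    have h8 : ((D + 1 : ℕ) : ℝ) * ((i : ℝ) * ((D : ℝ) + 1)) + ∑ j ∈ range (D + 1), (j : ℝ) ≤
        ((D : ℝ) + 1) ^ 2 / 2 * (2 * i + 1) := by
      push_cast at h6 ⊢
      nlinarith
    calc (bb kap i : ℝ) * (((D + 1 : ℕ) : ℝ) * ((i : ℝ) * ((D : ℝ) + 1)) +
        ∑ j ∈ range (D + 1), (j : ℝ)) ≤ (bb kap i : ℝ) * (((D : ℝ) + 1) ^ 2 / 2 * (2 * i + 1)) :=
          mul_le_mul_of_nonneg_left h8 h7
      _ = _ := by ring
  have e2 : ((D : ℝ) + 1) ^ 2 / 2 *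
      (lam * (K + 1) ^ 2 + ∑ i ∈ range (K + 1), (bb kap i : ℝ) * (2 * i + 1)) =
      ((D : ℝ) + 1) ^ 2 / 2 * (lam * (K + 1) ^ 2) +
      ((D : ℝ) + 1) ^ 2 / 2 * ∑ i ∈ range (K + 1), (bb kap i : ℝ) * (2 * i + 1) := by ring
  rw [e2]
  linarith

end Pool.Agent.Work.MP_b73316_nt.V
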