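import Pool.Agent.Work.MP_b73316_nt.V.Defs
import Pool.Agent.Work.MP_b73316_nt.Tri
import Pool.Agent.Work.MP_b73316_nt.PolyB
import Pool.Agent.Work.MP_b73316_nt.Ser

/-!
Module GauA (size M): the `p`-adic gauge.

PROOF.  `T = toR ℤ_[p] tt = q + ...` (`tt_pow_coeff_lt`, `tt_pow_coeff_self`).  `f(T) = aeval T f` has
constant coefficient `f.coeff 0 = 1`, let `fi` be its inverse (`invOfUnit`), constant coefficient `1`.
`g l = T^l * fi^(aa E d l)` satisfies the hypotheses of `tri`; take its functionals.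
Let `R` be as in the statement, `l < p`, `w = ww E p l`.
If `w = 0` use part 2 of `tri` with `a = 0` (coefficients in `ℤ_[p]` have norm `≤ 1`).
If `w ≥ 1`: the set `{s ∈ {1..11} : s (p+12) + 12 E < 12 l}` is an initial segment, so it is
`{1..w}`, `w ≤ 11` and `w (p+12) + 12 E < 12 l`, hence `12 (E + w d) < 12 l` (`12 d ≤ p + 12`), i.e.
`E + w d < l`.  Take `s = w` and `P` from the hypothesis: modulo `p^w`, in degrees `< p`,
`f(T)^w R ≡ P(T)`; multiply by `fi^w` (the series with coefficients divisible by `p^w` in degrees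
`< p` form an ideal): `R ≡ P(T) fi^w = ∑_{k ≤ E + w d} c_k g_k` by `polyB`.  Part 3 of `tri` with
`L = E + w d`, `a = w` gives the claim (`p^w ∣ x` in `ℤ_[p]` means `‖x‖ ≤ p^(-w)`:
`PadicInt.norm_le_pow_iff_mem_span_pow`, `PadicInt.norm_def`).
-/

set_option autoImplicit false

open PowerSeries Finset MP0f16e1

namespace Pool.Agent.Work.MP_b73316_nt.V

private theorem ga_coeff_mul {R : Type} [CommRing R] (A B : PowerSeries R) (l k : ℕ)
    (hA : ∀ i < l, coeff i A = 0) (hk : k ≤ l) :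
    coeff k (A * B) = if k = l then coeff l A * coeff 0 B else 0 := by
  obtain ⟨c, hc⟩ := X_pow_dvd_iff.mpr hA
  rw [hc, mul_assoc]
  rw [coeff_X_pow_mul', coeff_X_pow_mul']
  split_ifs with h1 h2 h3 h4 h5
  · rw [h2, Nat.sub_self, coeff_zero_eq_constantCoeff_apply, coeff_zero_eq_constantCoeff_apply,
      coeff_zero_eq_constantCoeff_apply, map_mul]
  all_goals first | rfl | omega

private theorem ga_const (p : ℕ) [Fact p.Prime] (f : Polynomial ℤ_[p]) (T : PowerSeries ℤ_[p])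
    (hT : constantCoeff T = 0) :
    constantCoeff (Polynomial.aeval T f) = f.coeff 0 := by
  rw [Polynomial.aeval_def, Polynomial.hom_eval₂, hT]
  rw [Polynomial.eval₂_at_zero]
  rfl

private theorem ga_dvd {R : Type} [CommRing R] (A B : PowerSeries R) (x : R) (N : ℕ)
    (h : ∀ n < N, x ∣ coeff n A) : ∀ n < N, x ∣ coeff n (B * A) := by
  intro n hn
  rw [coeff_mul]
  refine dvd_sum fun ij hij => ?_
  rw [HasAntidiagonal.mem_antidiagonal] at hij
  exact Dvd.dvd.mul_left (h ij.2 (by omega)) _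

private theorem ga_ww (S E p l : ℕ) (hw : ww S E p l ≠ 0) :
    ww S E p l ≤ S ∧ ww S E p l * (p + 12) + 12 * E < 12 * l := by
  have h1 : ww S E p l ≤ S := by
    unfold ww
    exact (card_filter_le _ _).trans (by simp)
  refine ⟨h1, ?_⟩
  by_contra hcon
  push Not at hcon
  have h2 : ((Icc 1 S).filter (fun s => s * (p + 12) + 12 * E < 12 * l)) ⊆
      Icc 1 (ww S E p l - 1) := by
    intro s hs
    rw [mem_filter, mem_Icc] at hs
    rw [mem_Icc]
    refine ⟨hs.1.1, ?_⟩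
    by_contra h3
    have h4 : ww S E p l ≤ s := by omega
    have h5 := Nat.mul_le_mul_right (p + 12) h4
    omega
  have h3 := card_le_card h2
  rw [Nat.card_Icc] at h3
  have h4 : ((Icc 1 S).filter (fun s => s * (p + 12) + 12 * E < 12 * l)).card = ww S E p l := rfl
  omega

theorem gaugeA (S p d E : ℕ) [Fact p.Prime] (hd : 1 ≤ d) (hd2 : 12 * d ≤ p + 12)
    (f : Polynomial ℤ_[p]) (hf0 : f.coeff 0 = 1) (hfd : f.natDegree ≤ d) :
    ∃ lam : ℕ → (PowerSeries ℚ_[p] →ₗ[ℚ_[p]] ℚ_[p]),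
      (∀ l R, (∀ k < l, coeff k R = 0) → lam l R = coeff l R) ∧
      ∀ R : PowerSeries ℤ_[p],
        (∀ s ≤ S, ∃ P : Polynomial ℤ_[p], P.natDegree ≤ E + s * d ∧ ∀ n < p,
          (p : ℤ_[p]) ^ s ∣ coeff n (Polynomial.aeval (toR ℤ_[p] tt) f ^ s * R -
            Polynomial.aeval (toR ℤ_[p] tt) P)) →
        ∀ l < p, ‖lam l (R.map (algebraMap ℤ_[p] ℚ_[p]))‖ ≤ (p : ℝ) ^ (-(ww S E p l : ℤ)) := by
  set T : PowerSeries ℤ_[p] := toR ℤ_[p] tt with hT
  have hTc : ∀ l k, coeff k (T ^ l) = ((coeff k (tt ^ l) : ℤ) : ℤ_[p]) := by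
    intro l k
    rw [hT]
    unfold toR
    rw [← map_pow, coeff_map]
    rfl
  have hT0 : constantCoeff T = 0 := by
    have h1 := hTc 1 0
    rw [tt_pow_coeff_lt (by norm_num : 0 < 1), pow_one, coeff_zero_eq_constantCoeff_apply] at h1
    rw [h1, Int.cast_zero]
  have hfc : constantCoeff (Polynomial.aeval T f) = 1 := by
    rw [ga_const p f T hT0, hf0]
  set fi : PowerSeries ℤ_[p] := invOfUnit (Polynomial.aeval T f) 1 with hfi
  have hfi1 : fi * Polynomial.aeval T f = 1 := invOfUnit_mul _ _ (by rw [hfc, Units.val_one])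
  have hfi0 : constantCoeff fi = 1 := by
    rw [hfi, constantCoeff_invOfUnit, inv_one, Units.val_one]
  have hfi0' : ∀ a : ℕ, coeff 0 (fi ^ a) = 1 := by
    intro a
    rw [coeff_zero_eq_constantCoeff_apply, map_pow, hfi0, one_pow]
  have hTlt : ∀ l, ∀ i < l, coeff i (T ^ l) = 0 := by
    intro l i hi
    rw [hTc, tt_pow_coeff_lt hi, Int.cast_zero]
  have hTself : ∀ l, coeff l (T ^ l) = 1 := by
    intro l
    rw [hTc, tt_pow_coeff_self, Int.cast_one]
  obtain ⟨lam, hl1, hl2, hl3⟩ := tri p (fun l => T ^ l * fi ^ (aa E d l))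
    (fun l k hk => by
      rw [ga_coeff_mul _ _ l k (hTlt l) hk.le, if_neg hk.ne])
    (fun l => by
      rw [ga_coeff_mul _ _ l l (hTlt l) le_rfl, if_pos rfl, hTself, hfi0', one_mul])
  refine ⟨lam, hl1, ?_⟩
  intro R hR l hl
  by_cases hw : ww S E p l = 0
  · rw [hw]
    refine hl2 l 0 _ fun n _ => ?_
    rw [coeff_map]
    have h1 := PadicInt.norm_le_one (coeff n R)
    simpa using h1
  · obtain ⟨hw1, hw2⟩ := ga_ww S E p l hw
    set w : ℕ := ww S E p l with hwdef
    have hL : E + w * d < l := by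
      have h1 : w * (12 * d) ≤ w * (p + 12) := Nat.mul_le_mul_left w hd2
      have h2 : w * (12 * d) = 12 * (w * d) := by ring
      omega
    obtain ⟨P, hP1, hP2⟩ := hR w hw1
    obtain ⟨c, hc⟩ := polyB T fi f d E hd hf0 hfd hfi1 w P hP1
    refine hl3 l (E + w * d) w _ c hL fun n hn => ?_
    have h1 : R - ∑ k ∈ range (E + w * d + 1), c k • (T ^ k * fi ^ (aa E d k)) =
        fi ^ w * (Polynomial.aeval T f ^ w * R - Polynomial.aeval T P) := by
      rw [← hc, mul_sub, ← mul_assoc, ← mul_pow, hfi1, one_pow, one_mul, mul_comm (fi ^ w)]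
    have h2 := ga_dvd _ (fi ^ w) _ p hP2 n (by omega)
    rw [← h1, map_sub] at h2
    rw [coeff_map]
    have h3 : ‖coeff n R - coeff n (∑ k ∈ range (E + w * d + 1),
        c k • (T ^ k * fi ^ (aa E d k)))‖ ≤ (p : ℝ) ^ (-(w : ℤ)) := by
      rw [PadicInt.norm_le_pow_iff_mem_span_pow, Ideal.mem_span_singleton]
      exact h2
    have h4 : (algebraMap ℤ_[p] ℚ_[p]) (coeff n R) -
        ((coeff n (∑ k ∈ range (E + w * d + 1), c k • (T ^ k * fi ^ (aa E d k))) : ℤ_[p]) :
          ℚ_[p]) = ((coeff n R - coeff n (∑ k ∈ range (E + w * d + 1),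
        c k • (T ^ k * fi ^ (aa E d k))) : ℤ_[p]) : ℚ_[p]) := by
      rw [PadicInt.coe_sub]
      rfl
    rw [h4]
    exact h3

end Pool.Agent.Work.MP_b73316_nt.V
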