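import Pool.Agent.Work.MP_b73316_nt.V.Defs
import Pool.Agent.Work.MP_b73316_nt.V.GauA
import Pool.Agent.Work.MP_b73316_nt.V.Str1
import Pool.Agent.Work.MP_b73316_nt.Ep
import Pool.Agent.Work.MP_b73316_nt.Lim3
import Pool.Agent.Work.MP_b73316_nt.DenM

/-!
Module GauB (size M): functionals for a bad prime.

PROOF.  `P₀ = 4^(kap K) + 2 kap K + 14`.  Let `p ≥ P₀` be prime with all `zs p (2 kap i + 1) → 0`,
`1 ≤ i ≤ K`.  `ep` gives `E`, `fpoly` gives `f`, `d = dd p` (`dd_bound`: `1 ≤ d`, `12 d ≤ p + 5`).  Let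
`E₀ = D + kap K + 22` and take the functionals `lam'` of `gaugeA p d E₀`.  Define, for
`R ∈ ℚ⟦q⟧`: `lam l R = lam' l (R mapped to ℚ_[p])` for `l < p`, and `lam l R = coeff l R` for `l ≥ p`
(a `ℚ`-linear map; `PowerSeries.map` and `LinearMap.restrictScalars`).  First claim: clear.
Second claim, `i = κ (D+1) + e`, `κ ≤ K`, `e ≤ D`.
* `l ≥ p`: `row_den`.
* `l < p`: `Nat.log p l = 0`, so the bound is `p^(-ww E₀ p l)`.  The coefficients of `Fs b` below `p`
  are `p`-integral (divisors `d < p`), so there is `F` with `IsF p (2 kap κ + 1) F` (`κ ≥ 1`); put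
  `R = toR ℤ_[p] (tt^e xx^(kap κ)) * F` (`κ ≥ 1`), `R = toR ℤ_[p] (tt^e)` (`κ = 0`, using `kap 0 = 0`).
  The coefficients `n < p` of `row kap D i` and of `R` agree in `ℚ_[p]`, and `lam' l` only depends on
  the coefficients `≤ l` (if the coefficients `k ≤ l` of `R''` vanish then `lam' l R'' = coeff l R'' = 0`
  by the first property).  Hypothesis of `gaugeA` for `R`: `κ ≥ 1`: `str1` (with `van_V`;
  `4^(kap κ) ≤ 4^(kap K)`, `kap κ ≤ kap K` by monotonicity) gives `P`, multiply by `t^e`: `X^e P` has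
  degree `≤ e + s d + kap κ + 22 ≤ E₀ + s d`.  `κ = 0`: `P = f^s X^e`, degree `≤ s d + e`.
-/

set_option autoImplicit false

open PowerSeries Finset Filter MP0f16e1

namespace Pool.Agent.Work.MP_b73316_nt.V

private theorem GauB_dvd {R : Type} [CommRing R] (A B : PowerSeries R) (x : R) (N : ℕ)
    (h : ∀ n < N, x ∣ coeff n A) : ∀ n < N, x ∣ coeff n (B * A) := by
  intro n hn
  rw [coeff_mul]
  refine dvd_sum fun ij hij => ?_
  rw [HasAntidiagonal.mem_antidiagonal] at hij
  exact Dvd.dvd.mul_left (h ij.2 (by omega)) _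

private theorem GauB_toR_mul (R : Type) [CommRing R] (a b : PowerSeries ℤ) :
    toR R (a * b) = toR R a * toR R b := by
  unfold toR
  exact map_mul _ _ _

private theorem GauB_toR_pow (R : Type) [CommRing R] (a : PowerSeries ℤ) (n : ℕ) :
    toR R (a ^ n) = toR R a ^ n := by
  unfold toR
  exact map_pow _ _ _

private theorem GauB_F (p b : ℕ) [Fact p.Prime] : ∃ F : PowerSeries ℤ_[p], IsF p b F := by
  have h : ∀ n, ∃ x : ℤ_[p], n < p → (x : ℚ_[p]) = ((coeff n (Fs b) : ℚ) : ℚ_[p]) := by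
    intro n
    by_cases hn : n < p
    · have h1 : ‖((coeff n (Fs b) : ℚ) : ℚ_[p])‖ ≤ 1 := by
        have h2 : ((coeff n (Fs b) : ℚ) : ℚ_[p]) = ∑ d ∈ n.divisors, ((d : ℚ_[p]) ^ b)⁻¹ := by
          simp [Fs]
        rw [h2]
        refine IsUltrametricDist.norm_sum_le_of_forall_le_of_nonneg zero_le_one fun d hd => ?_
        have hd1 := Nat.mem_divisors.1 hd
        have hd2 : d ≤ n := Nat.le_of_dvd (Nat.pos_of_ne_zero hd1.2) hd1.1
        have hd3 : 0 < d := Nat.pos_of_mem_divisors hd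
        have hd4 : p.Coprime d := by
          rw [Nat.Prime.coprime_iff_not_dvd Fact.out]
          intro h3
          exact absurd (Nat.le_of_dvd hd3 h3) (by omega)
        rw [norm_inv, norm_pow, Padic.norm_natCast_eq_one_iff.2 hd4, one_pow, inv_one]
      exact ⟨⟨_, h1⟩, fun _ => rfl⟩
    · exact ⟨0, fun h => absurd h hn⟩
  choose x hx using h
  exact ⟨PowerSeries.mk x, fun n hn => by rw [coeff_mk]; exact hx n hn⟩

/-- if the sum of level `S` vanishes modulo `p^S`, the sum of level `s ≤ S` vanishes modulo `p^s` -/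
private theorem van_VS (p : ℕ) [Fact p.Prime] (hp : p ≠ 2) (κ S s : ℕ) (h1 : 1 ≤ s) (hs : s ≤ S)
    (h : ‖VV p (-(2 * κ : ℤ)) S‖ ≤ (p : ℝ) ^ (-(S : ℤ))) :
    ‖VV p (-(2 * κ : ℤ)) s‖ ≤ (p : ℝ) ^ (-(s : ℤ)) := by
  obtain ⟨μ, hμ⟩ := mu_exists p hp (-(2 * κ : ℤ)) ⟨-κ, by ring⟩
  have hp1 : (1 : ℝ) < p := by exact_mod_cast (Fact.out : p.Prime).one_lt
  have h2 := (hμ S (h1.trans hs)).1
  have h3 : ‖μ‖ ≤ (p : ℝ) ^ (-(S : ℤ)) := by
    have e : μ = VV p (-(2 * κ : ℤ)) S - (VV p (-(2 * κ : ℤ)) S - μ) := by ring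
    rw [e, sub_eq_add_neg]
    refine (Padic.nonarchimedean _ _).trans (max_le h ?_)
    rw [norm_neg]
    exact h2
  have h4 : (p : ℝ) ^ (-(S : ℤ)) ≤ (p : ℝ) ^ (-(s : ℤ)) :=
    zpow_le_zpow_right₀ hp1.le (by omega)
  have e : VV p (-(2 * κ : ℤ)) s = (VV p (-(2 * κ : ℤ)) s - μ) + μ := by ring
  rw [e]
  exact (Padic.nonarchimedean _ _).trans (max_le (hμ s h1).1 (h3.trans h4))

theorem gaugeB (S : ℕ) (hS : S ≤ 11) (kap : ℕ → ℕ) (h0 : kap 0 = 0) (hk : StrictMono kap) (K : ℕ) (p : ℕ)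
    [Fact p.Prime] (hp : 4 ^ kap K + 2 * kap K + 14 ≤ p)
    (hv : ∀ i ∈ Icc 1 K, ‖VV p (-(2 * kap i : ℤ)) S‖ ≤ (p : ℝ) ^ (-(S : ℤ))) (D : ℕ) :
    ∃ lam : ℕ → (PowerSeries ℚ →ₗ[ℚ] ℚ_[p]),
      (∀ l, ∀ R : PowerSeries ℚ, (∀ k < l, coeff k R = 0) →
        lam l R = ((coeff l R : ℚ) : ℚ_[p])) ∧
      ∀ l i, i < (K + 1) * (D + 1) → ‖lam l (row kap D i)‖ ≤
        (p : ℝ) ^ ((bb kap (i / (D + 1)) * Nat.log p l : ℤ) -
          ((if l < p then ww S (D + kap K + 22) p l else 0 : ℕ) : ℤ)) := by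
  have hp13 : 13 ≤ p := by
    have : 1 ≤ 4 ^ kap K := Nat.one_le_pow _ _ (by norm_num)
    omega
  obtain ⟨E, hEm, hE0, hE1⟩ := ep p (by omega)
  obtain ⟨f, hf0, hfd, hfE⟩ := fpoly p (by omega) E hEm hE0
  obtain ⟨hd1, hd2, -⟩ := dd_bound p hp13
  obtain ⟨lam', hl1, hl2⟩ := gaugeA S p (dd p) (D + kap K + 22) hd1 (by omega) f hf0 hfd
  have hloc : ∀ (l : ℕ) (R₁ R₂ : PowerSeries ℚ_[p]), (∀ k ≤ l, coeff k R₁ = coeff k R₂) →
      lam' l R₁ = lam' l R₂ := by
    intro l R₁ R₂ h
    have h1 : lam' l (R₁ - R₂) = coeff l (R₁ - R₂) :=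
      hl1 l _ fun k hk => by rw [map_sub, h k hk.le, sub_self]
    rw [map_sub, map_sub, h l le_rfl, sub_self, sub_eq_zero] at h1
    exact h1
  let m : PowerSeries ℚ →ₗ[ℚ] PowerSeries ℚ_[p] :=
    (PowerSeries.mapAlgHom (Algebra.ofId ℚ ℚ_[p])).toLinearMap
  have hm : ∀ (R : PowerSeries ℚ) (k : ℕ), coeff k (m R) = ((coeff k R : ℚ) : ℚ_[p]) := by
    intro R k
    change coeff k (PowerSeries.map (algebraMap ℚ ℚ_[p]) R) = _
    rw [coeff_map]
    rfl
  refine ⟨fun l => if l < p then ((lam' l).restrictScalars ℚ).comp m else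
    (Algebra.linearMap ℚ ℚ_[p]).comp (PowerSeries.coeff l : PowerSeries ℚ →ₗ[ℚ] ℚ), ?_, ?_⟩
  · intro l R hR
    by_cases hl : l < p
    · simp only [if_pos hl, LinearMap.comp_apply, LinearMap.coe_restrictScalars]
      rw [hl1 l _ fun k hk => by rw [hm, hR k hk, Rat.cast_zero], hm]
    · simp only [if_neg hl, LinearMap.comp_apply, Algebra.linearMap_apply]
      rfl
  · intro l i hi
    have hκ : i / (D + 1) ≤ K := by
      have := Nat.div_lt_of_lt_mul (by rwa [mul_comm] at hi : i < (D + 1) * (K + 1))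
      omega
    have he : i % (D + 1) ≤ D := by
      have := Nat.mod_lt i (by omega : 0 < D + 1)
      omega
    by_cases hl : l < p
    · simp only [if_pos hl, LinearMap.comp_apply, LinearMap.coe_restrictScalars]
      have hlog : Nat.log p l = 0 := Nat.log_of_lt hl
      rw [hlog, Nat.cast_zero, mul_zero, zero_sub]
      set κ := i / (D + 1) with hκd
      set e := i % (D + 1) with hed
      -- it is enough to find `R`
      suffices H : ∃ R : PowerSeries ℤ_[p],
          (∀ n < p, ((coeff n R : ℤ_[p]) : ℚ_[p]) = ((coeff n (row kap D i) : ℚ) : ℚ_[p])) ∧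
          ∀ s ≤ S, ∃ P : Polynomial ℤ_[p], P.natDegree ≤ (D + kap K + 22) + s * dd p ∧ ∀ n < p,
            (p : ℤ_[p]) ^ s ∣ coeff n (Polynomial.aeval (toR ℤ_[p] tt) f ^ s * R -
              Polynomial.aeval (toR ℤ_[p] tt) P) by
        obtain ⟨R, hR1, hR2⟩ := H
        have h2 := hl2 R hR2 l hl
        rw [hloc l (m (row kap D i)) (R.map (algebraMap ℤ_[p] ℚ_[p])) fun k hk => ?_]
        · exact h2
        · rw [hm, coeff_map, ← hR1 k (by omega)]
          rfl
      rcases Nat.eq_zero_or_pos κ with hκ0 | hκ1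
      · refine ⟨toR ℤ_[p] (tt ^ e), ?_, ?_⟩
        · intro n _
          have h3 : row kap D i = toR ℚ (tt ^ e) := by
            unfold row FF
            rw [← hκd, ← hed, hκ0, h0, pow_zero, mul_one, if_pos rfl, mul_one]
          rw [h3]
          unfold toR
          rw [coeff_map, coeff_map]
          simp
        · intro s _
          refine ⟨f ^ s * Polynomial.X ^ e, ?_, ?_⟩
          · refine Polynomial.natDegree_mul_le.trans ?_
            have h4 : (f ^ s).natDegree ≤ s * dd p :=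
              Polynomial.natDegree_pow_le.trans (Nat.mul_le_mul_left _ hfd)
            have h5 : (Polynomial.X ^ e : Polynomial ℤ_[p]).natDegree ≤ e :=
              Polynomial.natDegree_X_pow_le e
            omega
          · intro n _
            rw [GauB_toR_pow, map_mul, map_pow, map_pow, Polynomial.aeval_X, sub_self, map_zero]
            exact dvd_zero _
      · obtain ⟨F, hF⟩ := GauB_F p (2 * kap κ + 1)
        have hkk : kap κ ≤ kap K := hk.monotone hκ
        have hk1 : 1 ≤ kap κ := hκ1.trans_le (hk.id_le κ)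
        refine ⟨toR ℤ_[p] (tt ^ e * xx ^ kap κ) * F, ?_, ?_⟩
        · intro n hn
          have h3 : row kap D i = toR ℚ (tt ^ e * xx ^ kap κ) * Fs (2 * kap κ + 1) := by
            unfold row FF
            rw [← hκd, ← hed, if_neg (by omega)]
          rw [h3, coeff_mul, coeff_mul, PadicInt.coe_sum, Rat.cast_sum]
          refine Finset.sum_congr rfl fun ij hij => ?_
          rw [HasAntidiagonal.mem_antidiagonal] at hij
          rw [PadicInt.coe_mul, Rat.cast_mul, hF ij.2 (by omega)]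
          congr 1
        · intro s hs
          obtain ⟨P, hP1, hP2⟩ := str1 p (kap κ) s hk1
            (by
              have := Nat.pow_le_pow_right (by norm_num : 0 < 4) hkk
              omega) (hs.trans hS)
            (fun h1s => van_VS p (by omega) (kap κ) S s h1s hs
              (hv κ (Finset.mem_Icc.2 ⟨hκ1, hκ⟩))) E hE1 f hfd hfE F hF
          refine ⟨Polynomial.X ^ e * P, ?_, ?_⟩
          · refine Polynomial.natDegree_mul_le.trans ?_
            have h5 : (Polynomial.X ^ e : Polynomial ℤ_[p]).natDegree ≤ e :=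
              Polynomial.natDegree_X_pow_le e
            omega
          · have h6 : Polynomial.aeval (toR ℤ_[p] tt) f ^ s *
                (toR ℤ_[p] (tt ^ e * xx ^ kap κ) * F) -
                Polynomial.aeval (toR ℤ_[p] tt) (Polynomial.X ^ e * P) =
                toR ℤ_[p] tt ^ e * (Polynomial.aeval (toR ℤ_[p] tt) f ^ s *
                (toR ℤ_[p] (xx ^ kap κ) * F) - Polynomial.aeval (toR ℤ_[p] tt) P) := by
              rw [GauB_toR_mul, GauB_toR_pow ℤ_[p] tt, map_mul, map_pow, Polynomial.aeval_X]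
              ring
            rw [h6]
            exact GauB_dvd _ _ _ p hP2
    · simp only [if_neg hl, LinearMap.comp_apply, Algebra.linearMap_apply]
      have h7 := row_den kap D i l p
      rw [Nat.cast_zero, sub_zero]
      have h8 : ((p : ℝ) ^ ((bb kap (i / (D + 1)) * Nat.log p l : ℤ))) =
          (p : ℝ) ^ (bb kap (i / (D + 1)) * Nat.log p l) := by
        rw [← Nat.cast_mul, zpow_natCast]
      rw [h8]
      exact h7

end Pool.Agent.Work.MP_b73316_nt.V
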