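import Pool.Agent.Work.MP_b73316_nt.Defs

/-!
# Sharper form: not both divisible by `p^7`

`L_p(n) = L_p(n, ω^(1-n)) = 1/(n-1) lim p^(-k) ∑ m^(1-n) ∈ ℤ_p`, `ζ_p(n) = p^n/(p^n-1) L_p(n)`.  The
method only uses the divisibility of `L_p(n)` by `p^S` for some `S ≤ 11`.  The files of this folder
repeat the files of the folder above with `11` replaced by `S`.
-/

open PowerSeries Finset Filter MP0f16e1

noncomputable section

namespace Pool.Agent.Work.MP_b73316_nt.V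

/-- `p` is prime, `ζ_p(n)` exists and `|ζ_p(n)|_p > p^(-n-S)` (that is, `L_p(n)` is not divisible by
`p^S`) -/
def NV (S p n : ℕ) : Prop :=
  ∃ h : p.Prime, haveI := Fact.mk h; ∃ L : ℚ_[p], (p : ℝ) ^ (-((n : ℤ) + S)) < ‖L‖ ∧
    Tendsto (zs p n) atTop (nhds L)

/-- number of `s ∈ {1,...,S}` with `s (p + 12) + 12 E < 12 l` -/
def ww (S E p l : ℕ) : ℕ := ((Icc 1 S).filter (fun s => s * (p + 12) + 12 * E < 12 * l)).card

/-- `∑_{s ≤ S} max (0, u (l - D)/s - l)` -/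
def GG (S : ℕ) (u D l : ℝ) : ℝ := ∑ s ∈ Icc (1 : ℕ) S, max 0 (u * (l - D) / s - l)

/-- `2 ∫_1^m G_u(a) da` for `D = 1` -/
def gain (S : ℕ) (u m : ℝ) : ℝ :=
  ∑ s ∈ Icc (1 : ℕ) S, if u < (u - s) * m then ((u - s) * m - u) ^ 2 / (s * (u - s)) else 0

/-- `p ≥ P` is prime and all the sums `VV p (-2 kap i) S`, `1 ≤ i ≤ K`, vanish modulo `p^S` -/
def Bad (S : ℕ) (kap : ℕ → ℕ) (K P p : ℕ) : Prop :=
  P ≤ p ∧ ∃ h : p.Prime, haveI := Fact.mk h;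
    ∀ i ∈ Icc 1 K, ‖VV p (-(2 * kap i : ℤ)) S‖ ≤ (p : ℝ) ^ (-(S : ℤ))

end Pool.Agent.Work.MP_b73316_nt.V

end
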