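import Pool.Agent.Work.MP_b73316_nt.V.Defs
import Pool.Agent.Work.MP_b73316_nt.V.Core
import Pool.Agent.Work.MP_b73316_nt.V.CntM
import Pool.Agent.Work.MP_b73316_nt.V.NumC
import Pool.Agent.Work.MP_b73316_nt.PivB
import Pool.Agent.Work.MP_b73316_nt.Lin

/-!
Module Up (size S-M): upper density.

PROOF.  `core` with `δ₁` gives `n₀, ε`.  For every `n ≥ n₀`: `row_indep` and `pivot` give a pivot
datum; with `Y = ∑_j 12 l_j` there is `x = x_n` with `δ₁ x + ε n < thG Bᶜ x`.  As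
`thG Bᶜ x ≤ θ(x) ≤ log 4 · x` (`Chebyshev.theta_le_log4_mul_x`), `x_n ≥ ε n / 2 → ∞`.  By `thG_le`
(`P = 4^(kap K) + 2 kap K + 14`), `cnt S x · log x ≥ δ₁ x + ε n - C ≥ δ₁ x` for `n ≥ C/ε`.  By
`pi_near`, `π(x) log x ≤ (δ₁/δ) x` for `x` large if `δ > 0` (`δ₁/δ > 1`), so
`δ π(x) log x ≤ δ₁ x ≤ cnt S x · log x`, and `log x > 0`.  (`δ = 0` is trivial.)
-/

set_option autoImplicit false

open Finset Filter

namespace Pool.Agent.Work.MP_b73316_nt.V

private theorem thG_log4 (G : Set ℕ) (x : ℕ) : thG G x ≤ Real.log 4 * x := by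
  refine le_trans ?_ (Chebyshev.theta_le_log4_mul_x (Nat.cast_nonneg x))
  unfold thG
  rw [Chebyshev.theta_eq_sum_Icc, Nat.floor_natCast]
  refine Finset.sum_le_sum_of_subset_of_nonneg ?_ ?_
  · intro p hp
    simp only [mem_filter, mem_Icc] at hp ⊢
    exact ⟨⟨Nat.zero_le _, hp.1.2⟩, hp.2.1⟩
  · intro p _ _
    exact Real.log_natCast_nonneg p

theorem up (T : ℕ) (hT1 : 1 ≤ T) (hT : T ≤ 11) (kap : ℕ → ℕ) (h0 : kap 0 = 0) (hk : StrictMono kap) (K : ℕ) (δ δ₁ : ℝ)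
    (hδ : 0 ≤ δ) (h1 : δ < δ₁) (hδ1 : δ₁ < 1) (hc : Cond T kap K δ₁) (S : Finset ℕ)
    (hS : ∀ i ∈ Icc 1 K, 2 * kap i + 1 ∈ S) :
    ∃ᶠ X : ℕ in atTop, δ * Nat.primeCounting X ≤ cnt T S X := by
  obtain ⟨n₀, ε, hε, hcore⟩ := core T hT kap h0 hk K δ₁ (hδ.trans h1.le) hδ1 hc.1 hc.2
  obtain ⟨C, hC⟩ := thG_le T hT1 kap hk K (4 ^ kap K + 2 * kap K + 14)
    ((by norm_num : 3 ≤ 14).trans (Nat.le_add_left 14 _)) S hS
  -- points with large `thG`
  have hx : ∀ n : ℕ, n₀ ≤ n → ∃ x : ℕ, δ₁ * x + ε * n <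
      thG {p | Bad T kap K (4 ^ kap K + 2 * kap K + 14) p}ᶜ x := by
    intro n hn
    obtain ⟨l, δ', hP⟩ := pivot (fun i : Fin ((K + 1) * (4 * n + 1)) => row kap (4 * n) i)
      (row_indep kap h0 hk K (4 * n))
    obtain ⟨x, -, hx⟩ := hcore n hn l δ' hP (∑ j, 12 * l j) fun j =>
      Finset.single_le_sum (f := fun j => 12 * l j) (fun _ _ => Nat.zero_le _) (mem_univ j)
    exact ⟨x, hx⟩
  -- `thG` is at most `log 4 * x`
  have hth : ∀ x : ℕ, thG {p | Bad T kap K (4 ^ kap K + 2 * kap K + 14) p}ᶜ x ≤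
      Real.log 4 * x := by
    exact fun x => thG_log4 _ x
  have hpi := pi_near
  -- eventually `δ π(x) log x ≤ δ₁ x`
  have hev : ∀ᶠ x : ℕ in atTop, δ * (Nat.primeCounting x * Real.log x) ≤ δ₁ * x := by
    have h2 : Tendsto (fun x : ℕ => δ * ((Nat.primeCounting x : ℝ) * Real.log x / x)) atTop
        (nhds (δ * 1)) := hpi.const_mul δ
    rw [mul_one] at h2
    have h3 := h2.eventually (gt_mem_nhds h1)
    filter_upwards [h3, eventually_ge_atTop 1] with x hx hx1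
    have hx0 : (0 : ℝ) < x := by exact_mod_cast hx1
    have h4 : δ * ((Nat.primeCounting x : ℝ) * Real.log x / x) * x ≤ δ₁ * x :=
      mul_le_mul_of_nonneg_right hx.le hx0.le
    have h5 : δ * ((Nat.primeCounting x : ℝ) * Real.log x / x) * x =
        δ * (Nat.primeCounting x * Real.log x) := by
      field_simp
    rwa [h5] at h4
  rw [Filter.frequently_atTop]
  intro a
  obtain ⟨N, hN⟩ := Filter.eventually_atTop.1 hev
  -- choose `n` large
  obtain ⟨n, hn⟩ := exists_nat_ge (max (n₀ : ℝ) (max (C / ε)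
    (Real.log 4 * ((a : ℝ) + N + 2) / ε)))
  have hn0 : n₀ ≤ n := by exact_mod_cast (le_max_left _ _).trans hn
  have hnC : C ≤ ε * n := by
    have := ((le_max_left _ _).trans (le_max_right _ _)).trans hn
    rw [div_le_iff₀ hε] at this
    linarith
  have hnx : Real.log 4 * ((a : ℝ) + N + 2) ≤ ε * n := by
    have := ((le_max_right _ _).trans (le_max_right _ _)).trans hn
    rw [div_le_iff₀ hε] at this
    linarith
  obtain ⟨x, hx'⟩ := hx n hn0
  have hx2 := hth x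
  have hlog4 : 0 < Real.log 4 := Real.log_pos (by norm_num)
  have hδ₁ : 0 ≤ δ₁ * x := mul_nonneg (hδ.trans h1.le) (Nat.cast_nonneg x)
  have hbig : (a : ℝ) + N + 2 ≤ x := by
    have h6 : Real.log 4 * ((a : ℝ) + N + 2) ≤ Real.log 4 * x := by linarith
    exact le_of_mul_le_mul_left h6 hlog4
  have hxa : a ≤ x := by
    have : (a : ℝ) ≤ x := by
      have : (0 : ℝ) ≤ N := Nat.cast_nonneg N
      linarith
    exact_mod_cast this
  have hxN : N ≤ x := by
    have : (N : ℝ) ≤ x := by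
      have : (0 : ℝ) ≤ a := Nat.cast_nonneg a
      linarith
    exact_mod_cast this
  have hx3 : (2 : ℝ) ≤ x := by
    have h7 : (0 : ℝ) ≤ a := Nat.cast_nonneg a
    have h8 : (0 : ℝ) ≤ N := Nat.cast_nonneg N
    linarith
  refine ⟨x, hxa, ?_⟩
  have hlx : 0 < Real.log x := Real.log_pos (by linarith)
  have h9 := hN x hxN
  have h10 := hC x
  have h11 : δ * Nat.primeCounting x * Real.log x ≤ cnt T S x * Real.log x := by
    have : δ * Nat.primeCounting x * Real.log x = δ * (Nat.primeCounting x * Real.log x) := by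
      ring
    rw [this]
    linarith
  exact le_of_mul_le_mul_right h11 hlx

end Pool.Agent.Work.MP_b73316_nt.V
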