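import Pool.Agent.Work.MP_b73316_nt.V.Defs
import Pool.Agent.Work.MP_b73316_nt.V.Up
import Pool.Agent.Work.MP_b73316_nt.ZrE

/-!
Module Low (size S-M): positive lower density for `{3, 5}`.

PROOF.  `core` with `kap = kA` (`= fun j => j`), `K = 2`, `δ = 0` (`cond_A2`) gives `n₀, ε`.  For
`n ≥ n₀`, `D = 4 n`: a pivot datum (`row_indep`, `pivot`); `Piv.comb` and `zero_est` (with `L = l j`)
give `l j ≤ 56 n + 24`, so with `Y = 672 n + 288` there is `x ≤ Y` with `ε n < thG Bᶜ x ≤ thG Bᶜ Y`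
(monotone).  For `X ≥ X₀` let `n = (X - 288)/672`, so `Y ≤ X` and `n ≥ X/1400` for `X` large; by
`thG_le`, `cnt {3,5} X · log X ≥ ε n - C ≥ ε X/3000`.  By `pi_near`, `π(X) ≤ 2 X/log X` for `X` large,
so `cnt {3,5} X ≥ (ε/6000) π(X)`.
-/

set_option autoImplicit false

open Finset Filter

namespace Pool.Agent.Work.MP_b73316_nt.V

private theorem thG_mono_low (G : Set ℕ) {x y : ℕ} (h : x ≤ y) : thG G x ≤ thG G y := by
  classical
  unfold thG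
  refine Finset.sum_le_sum_of_subset_of_nonneg ?_ ?_
  · intro p hp
    simp only [Finset.mem_filter, Finset.mem_Icc] at hp ⊢
    exact ⟨⟨hp.1.1, hp.1.2.trans h⟩, hp.2⟩
  · intro p _ _
    exact Real.log_natCast_nonneg p

private theorem low_core : ∃ (n₀ : ℕ) (ε : ℝ), 0 < ε ∧ ∀ n : ℕ, n₀ ≤ n →
    ε * n < thG {p | Bad 7 kA 2 (4 ^ kA 2 + 2 * kA 2 + 14) p}ᶜ (672 * n + 288) := by
  obtain ⟨c1, c2⟩ := cond_A2
  obtain ⟨n₀, ε, hε, h⟩ := core 7 (by norm_num) kA rfl kA_mono 2 0 le_rfl one_pos c1 c2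
  refine ⟨n₀, ε, hε, fun n hn => ?_⟩
  obtain ⟨l, δ', hp⟩ := pivot _ (row_indep kA rfl kA_mono 2 (4 * n))
  obtain ⟨x, hx, hlt⟩ := h n hn l δ' hp (672 * n + 288) (fun j => by
    obtain ⟨c, hc, hc'⟩ := hp.comb j
    have := zero_est (4 * n) (l j) c hc hc'
    omega)
  have := thG_mono_low {p | Bad 7 kA 2 (4 ^ kA 2 + 2 * kA 2 + 14) p}ᶜ hx
  linarith

theorem low : ∃ c : ℝ, 0 < c ∧ ∀ᶠ X : ℕ in atTop,
    c * Nat.primeCounting X ≤ cnt 7 {3, 5} X := by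
  obtain ⟨n₀, ε, hε, h⟩ := low_core
  have hP : 3 ≤ 4 ^ kA 2 + 2 * kA 2 + 14 := le_add_left (by norm_num)
  have hS : ∀ i ∈ Icc 1 2, 2 * kA i + 1 ∈ ({3, 5} : Finset ℕ) := by
    intro i hi
    rw [Finset.mem_Icc] at hi
    have h12 : i = 1 ∨ i = 2 := by omega
    rcases h12 with rfl | rfl <;> simp [kA]
  obtain ⟨C, hC⟩ := thG_le 7 (by norm_num) kA kA_mono 2 (4 ^ kA 2 + 2 * kA 2 + 14) hP {3, 5} hS
  refine ⟨ε / 6000, by positivity, ?_⟩
  have e1 : ∀ᶠ X : ℕ in atTop, (Nat.primeCounting X : ℝ) * Real.log X / X < 2 :=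
    pi_near.eventually (gt_mem_nhds (by norm_num))
  have e2 : ∀ᶠ X : ℕ in atTop, 3000 * C / ε ≤ (X : ℝ) :=
    tendsto_natCast_atTop_atTop.eventually_ge_atTop _
  filter_upwards [e1, e2, eventually_ge_atTop (672 * (n₀ + 1) + 288), eventually_ge_atTop 1920]
    with X h1 h2 h3 h4
  have hX0 : (0 : ℝ) < X := by
    have : 0 < X := by omega
    exact_mod_cast this
  obtain ⟨n, hn1, hn2, hn3⟩ : ∃ n : ℕ, n₀ ≤ n ∧ 672 * n + 288 ≤ X ∧ X ≤ 1344 * n := by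
    refine ⟨(X - 288) / 672, ?_, ?_, ?_⟩ <;> omega
  have a1 := h n hn1
  have a2 := thG_mono_low {p | Bad 7 kA 2 (4 ^ kA 2 + 2 * kA 2 + 14) p}ᶜ hn2
  have a3 := hC X
  have hn3' : (X : ℝ) ≤ 1344 * n := by exact_mod_cast hn3
  have a4 : 3000 * C ≤ X * ε := by
    rwa [div_le_iff₀ hε] at h2
  have a5 : ε * X ≤ 1344 * (ε * n) := by nlinarith
  have hlog : 0 < Real.log X := Real.log_pos (by
    have : 1 < X := by omega
    exact_mod_cast this)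
  rw [div_lt_iff₀ hX0] at h1
  have a6 : ε / 3000 * X ≤ cnt 7 {3, 5} X * Real.log X := by nlinarith
  have a7 : (ε / 6000 * Nat.primeCounting X) * Real.log X ≤ cnt 7 {3, 5} X * Real.log X := by
    nlinarith
  exact le_of_mul_le_mul_right a7 hlog

end Pool.Agent.Work.MP_b73316_nt.V
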