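import Pool.Agent.Work.MP_b73316_nt.V.Defs
import Pool.Agent.Work.MP_b73316_nt.V.Low

/-!
Module Fin (assembly; proved from the stubs).
-/

set_option autoImplicit false

open Finset Filter

namespace Pool.Agent.Work.MP_b73316_nt.V

/-- if the set of the primes with a nonzero value in `S` is finite, `cnt T S` is bounded -/
private theorem cnt_bdd (T : ℕ) (S : Finset ℕ) (h : {p : ℕ | ∃ n ∈ S, NV T p n}.Finite) :
    ∃ C : ℕ, ∀ X, cnt T S X ≤ C := by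
  classical
  refine ⟨h.toFinset.card, fun X => ?_⟩
  unfold cnt
  apply Finset.card_le_card
  intro p hp
  rw [Finset.mem_filter] at hp
  rw [Set.Finite.mem_toFinset]
  exact hp.2

private theorem pi_unbdd (c : ℝ) (hc : 0 < c) (C : ℝ) :
    ∀ᶠ X : ℕ in atTop, C < c * Nat.primeCounting X := by
  have h1 : Tendsto (fun X : ℕ => (Nat.primeCounting X : ℝ)) atTop atTop :=
    tendsto_natCast_atTop_atTop.comp Nat.tendsto_primeCounting
  have h2 := h1.const_mul_atTop hc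
  exact h2.eventually_gt_atTop C

private theorem inf_of_freq {T : ℕ} (S : Finset ℕ) (c : ℝ) (hc : 0 < c)
    (h : ∃ᶠ X : ℕ in atTop, c * Nat.primeCounting X ≤ cnt T S X) :
    {p : ℕ | ∃ n ∈ S, NV T p n}.Infinite := by
  intro hfin
  obtain ⟨C, hC⟩ := cnt_bdd T S hfin
  obtain ⟨X, h1, h2⟩ := (h.and_eventually (pi_unbdd c hc C)).exists
  have h3 : (cnt T S X : ℝ) ≤ C := by exact_mod_cast hC X
  linarith

private theorem exists_inf {T : ℕ} (S : Finset ℕ) (h : {p : ℕ | ∃ n ∈ S, NV T p n}.Infinite) :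
    ∃ n ∈ S, {p : ℕ | NV T p n}.Infinite := by
  by_contra hcon
  push Not at hcon
  apply h
  have h1 : {p : ℕ | ∃ n ∈ S, NV T p n} = ⋃ n ∈ S, {p : ℕ | NV T p n} := by
    ext p
    simp
  rw [h1]
  apply Set.Finite.biUnion S.finite_toSet
  intro n hn
  exact hcon n hn

/-- the condition `NV T p n` gets weaker when `T` grows -/
theorem NV_mono {T T' p n : ℕ} (hT : T ≤ T') (h : NV T p n) : NV T' p n := by
  obtain ⟨hp, h⟩ := h
  refine ⟨hp, ?_⟩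
  have := Fact.mk hp
  obtain ⟨L, h1, h2⟩ := h
  refine ⟨L, lt_of_le_of_lt ?_ h1, h2⟩
  have hp1 : (1 : ℝ) ≤ p := by exact_mod_cast hp.one_lt.le
  exact zpow_le_zpow_right₀ hp1 (by omega)

theorem final :
    (∃ c : ℝ, 0 < c ∧ ∀ᶠ X : ℕ in atTop, c * Nat.primeCounting X ≤ cnt 7 {3, 5} X) ∧
    (∃ᶠ X : ℕ in atTop, (2 / 25 : ℝ) * Nat.primeCounting X ≤ cnt 8 {3, 5, 7} X) ∧
    (∃ᶠ X : ℕ in atTop, (1 / 10 : ℝ) * Nat.primeCounting X ≤ cnt 8 {3, 5, 7, 9} X) ∧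
    (∃ᶠ X : ℕ in atTop, (1 / 200 : ℝ) * Nat.primeCounting X ≤ cnt 8 {5, 7, 9, 11} X) ∧
    (∃ᶠ X : ℕ in atTop, (1 / 80 : ℝ) * Nat.primeCounting X ≤ cnt 8 {3, 7, 9, 11} X) ∧
    (∃ n₁ ∈ ({3, 5, 7, 9, 11} : Finset ℕ), ∃ n₂ ∈ ({3, 5, 7, 9, 11} : Finset ℕ), n₁ ≠ n₂ ∧
      {p : ℕ | NV 8 p n₁}.Infinite ∧ {p : ℕ | NV 8 p n₂}.Infinite) := by
  have hA3 : ∃ᶠ X : ℕ in atTop, (2 / 25 : ℝ) * Nat.primeCounting X ≤ cnt 8 {3, 5, 7} X := by
    refine up 8 (by norm_num) (by norm_num) kA rfl kA_mono 3 (2 / 25) (161 / 2000) (by norm_num)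
      (by norm_num) (by norm_num) cond_A3 _ ?_
    intro i hi
    rw [Finset.mem_Icc] at hi
    obtain ⟨h1, h2⟩ := hi
    interval_cases i <;> simp [kA]
  have hA4 : ∃ᶠ X : ℕ in atTop, (1 / 10 : ℝ) * Nat.primeCounting X ≤ cnt 8 {3, 5, 7, 9} X := by
    refine up 8 (by norm_num) (by norm_num) kA rfl kA_mono 4 (1 / 10) (201 / 2000) (by norm_num)
      (by norm_num) (by norm_num) cond_A4 _ ?_
    intro i hi
    rw [Finset.mem_Icc] at hi
    obtain ⟨h1, h2⟩ := hi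
    interval_cases i <;> simp [kA]
  have hB4 : ∃ᶠ X : ℕ in atTop, (1 / 200 : ℝ) * Nat.primeCounting X ≤ cnt 8 {5, 7, 9, 11} X := by
    refine up 8 (by norm_num) (by norm_num) kB rfl kB_mono 4 (1 / 200) (11 / 2000) (by norm_num)
      (by norm_num) (by norm_num) cond_B4 _ ?_
    intro i hi
    rw [Finset.mem_Icc] at hi
    obtain ⟨h1, h2⟩ := hi
    interval_cases i <;> simp [kB]
  have hC4 : ∃ᶠ X : ℕ in atTop, (1 / 80 : ℝ) * Nat.primeCounting X ≤ cnt 8 {3, 7, 9, 11} X := by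
    refine up 8 (by norm_num) (by norm_num) kC rfl kC_mono 4 (1 / 80) (27 / 2000) (by norm_num)
      (by norm_num) (by norm_num) cond_C4 _ ?_
    intro i hi
    rw [Finset.mem_Icc] at hi
    obtain ⟨h1, h2⟩ := hi
    interval_cases i <;> simp [kC]
  obtain ⟨c, hc, hlow⟩ := low
  refine ⟨⟨c, hc, hlow⟩, hA3, hA4, hB4, hC4, ?_⟩
  obtain ⟨n₁, hn₁, h1'⟩ := exists_inf {3, 5} (inf_of_freq _ c hc hlow.frequently)
  have h1 : {p : ℕ | NV 8 p n₁}.Infinite := h1'.mono fun p hp => NV_mono (by norm_num) hp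
  have hn : n₁ = 3 ∨ n₁ = 5 := by simpa using hn₁
  rcases hn with rfl | rfl
  · obtain ⟨n₂, hn₂, h2⟩ := exists_inf {5, 7, 9, 11} (inf_of_freq _ _ (by norm_num) hB4)
    refine ⟨3, by simp, n₂, ?_, ?_, h1, h2⟩
    · simp at hn₂ ⊢
      tauto
    · rintro rfl
      simp at hn₂
  · obtain ⟨n₂, hn₂, h2⟩ := exists_inf {3, 7, 9, 11} (inf_of_freq _ _ (by norm_num) hC4)
    refine ⟨5, by simp, n₂, ?_, ?_, h1, h2⟩
    · simp at hn₂ ⊢
      tauto
    · rintro rfl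
      simp at hn₂

end Pool.Agent.Work.MP_b73316_nt.V
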